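import Pool.Agent.H48Maj.Core

/-!
Colorings along an Eulerian circuit.
-/

namespace Pool.Agent.H48Maj

open SimpleGraph

set_option linter.unusedSectionVars false

universe u
variable {V : Type u} {G : SimpleGraph V}
variable [Fintype V] [DecidableEq V] [DecidableRel G.Adj]

/-- weight of a position -/
def wt (m : ℕ) (χ : ℕ → ℕ) (g i : ℕ) : ℤ :=
  ((if χ i = g then 1 else 0) + (if prv m χ i = g then 1 else 0) : ℤ) - 1

theorem exc_eq {a : V} (p : G.Walk a a) (χ : ℕ → ℕ) (g : ℕ) (u : V) :
    exc p χ g u = ∑ i ∈ (Finset.range p.length).filter (fun i => p.getVert i = u),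
      wt p.length χ g i := rfl

/-- the next position -/
def nx (m j : ℕ) : ℕ := if j + 1 = m then 0 else j + 1

theorem nx_lt {m j : ℕ} (hj : j < m) : nx m j < m := by
  unfold nx
  split_ifs <;> omega

theorem prv_nx {m j : ℕ} (χ : ℕ → ℕ) : prv m χ (nx m j) = χ j := by
  unfold nx prv
  by_cases h : j + 1 = m
  · subst h
    simp
  · simp [h]

theorem getVert_nx {a : V} (p : G.Walk a a) {j : ℕ} (hj : j < p.length) :
    p.getVert (nx p.length j) = p.getVert (j + 1) := by
  unfold nx
  split_ifs with h
  · rw [h, Walk.getVert_length, Walk.getVert_zero]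
  · rfl

theorem wt_le_one (m : ℕ) (χ : ℕ → ℕ) (g i : ℕ) : wt m χ g i ≤ 1 := by
  unfold wt
  split_ifs <;> norm_num

theorem wt_nonpos {m : ℕ} {χ : ℕ → ℕ} {g i : ℕ} (h : χ i ≠ prv m χ i) : wt m χ g i ≤ 0 := by
  unfold wt
  split_ifs with h1 h2 h2
  · exact absurd (h1.trans h2.symm) h
  · norm_num
  · norm_num
  · norm_num

theorem wt_neg {m : ℕ} {χ : ℕ → ℕ} {g i : ℕ} (h1 : χ i ≠ g) (h2 : prv m χ i ≠ g) :
    wt m χ g i = -1 := by
  unfold wt
  simp [h1, h2]

theorem exc_nonpos {a : V} (p : G.Walk a a) (χ : ℕ → ℕ) (g : ℕ) (u : V)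
    (h : ∀ i < p.length, p.getVert i = u → χ i ≠ prv p.length χ i) : exc p χ g u ≤ 0 := by
  rw [exc_eq]
  apply Finset.sum_nonpos
  intro i hi
  simp only [Finset.mem_filter, Finset.mem_range] at hi
  exact wt_nonpos (h i hi.1 hi.2)

theorem exc_neg {a : V} (p : G.Walk a a) (χ : ℕ → ℕ) (g : ℕ) (u : V)
    (h : ∀ i < p.length, p.getVert i = u → χ i ≠ prv p.length χ i)
    (i : ℕ) (hi : i < p.length) (hiu : p.getVert i = u) (h1 : χ i ≠ g)
    (h2 : prv p.length χ i ≠ g) : exc p χ g u ≤ -1 := by
  rw [exc_eq, ← Finset.add_sum_erase _ _ (by simp [hi, hiu] :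
    i ∈ (Finset.range p.length).filter (fun i => p.getVert i = u)), wt_neg h1 h2]
  have : ∑ x ∈ ((Finset.range p.length).filter (fun i => p.getVert i = u)).erase i,
      wt p.length χ g x ≤ 0 := by
    apply Finset.sum_nonpos
    intro i hi
    simp only [Finset.mem_erase, Finset.mem_filter, Finset.mem_range] at hi
    exact wt_nonpos (h i hi.2.1 hi.2.2)
  linarith

/-- coloring `1,2,3,1,2,3,...` with repetitions at vertices of degree two -/
theorem rep_coloring {a : V} {p : G.Walk a a} (hE : p.IsEulerian) (hp : 0 < p.length)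
    (χ : ℕ → ℕ) (hχ : ∀ i < p.length, χ i < 3) (Rep : ℕ → Prop)
    (h1 : ∀ i < p.length, ¬ Rep i → χ i = (prv p.length χ i + 1) % 3)
    (h2 : ∀ i < p.length, Rep i → χ i = prv p.length χ i)
    (h3 : ∀ r < p.length, Rep r → ∀ i < p.length, p.getVert i = p.getVert r → i = r)
    (h4 : ∀ r < p.length, Rep r → ∀ r' < p.length, Rep r' →
      ¬ G.Adj (p.getVert r) (p.getVert r')) :
    ∃ c : G.edgeSet → Fin 3, IsStrongMajorityColoring G c := by
  apply core hE hp χ _ hχ
  intro j hj g hg
  have hj' := nx_lt hj
  have hprv := prv_nx (m := p.length) (j := j) χ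
  have hget := getVert_nx p hj
  have hadj : G.Adj (p.getVert j) (p.getVert (nx p.length j)) := by
    rw [hget]
    exact p.adj_getVert_succ hj
  have hprvlt : ∀ i < p.length, prv p.length χ i < 3 := by
    intro i hi
    unfold prv
    split_ifs
    · exact hχ _ (by omega)
    · exact hχ _ (by omega)
  rw [← hget]
  -- rep vertices
  have hrep : ∀ r < p.length, Rep r → exc p χ g (p.getVert r) = 2 * (if χ r = g then 1 else 0) - 1
      := by
    intro r hr hRr
    have : (Finset.range p.length).filter (fun i => p.getVert i = p.getVert r) = {r} := by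
      ext i
      simp only [Finset.mem_filter, Finset.mem_range, Finset.mem_singleton]
      constructor
      · rintro ⟨hi, hi2⟩
        exact h3 r hr hRr i hi hi2
      · rintro rfl
        exact ⟨hr, rfl⟩
    rw [exc_eq, this, Finset.sum_singleton, wt, ← h2 r hr hRr]
    ring
  have hnon : ∀ u, (∀ i < p.length, p.getVert i = u → ¬ Rep i) →
      ∀ i < p.length, p.getVert i = u → χ i ≠ prv p.length χ i := by
    intro u hu i hi hiu
    have := h1 i hi (hu i hi hiu)
    have := hprvlt i hi
    omega
  by_cases hRj : Rep j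
  · rw [hrep j hj hRj]
    have := exc_nonpos p χ g (p.getVert (nx p.length j)) (hnon _ (by
      intro i hi hi2 hRi
      apply h4 j hj hRj i hi hRi
      rw [hi2]
      exact hadj))
    linarith
  by_cases hRj' : Rep (nx p.length j)
  · rw [hrep _ hj' hRj', h2 _ hj' hRj', hprv]
    have := exc_nonpos p χ g (p.getVert j) (hnon _ (by
      intro i hi hi2 hRi
      apply h4 _ hj' hRj' i hi hRi
      rw [hi2]
      exact hadj.symm))
    linarith
  have hn1 := hnon (p.getVert j) (by
    intro i hi hi2 hRi
    have := h3 i hi hRi j hj hi2.symm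
    subst this
    exact hRj hRi)
  have hn2 := hnon (p.getVert (nx p.length j)) (by
    intro i hi hi2 hRi
    have := h3 i hi hRi _ hj' hi2.symm
    rw [← this] at hRi
    exact hRj' hRi)
  have e1 := exc_nonpos p χ g _ hn1
  have e2 := exc_nonpos p χ g _ hn2
  by_cases hg1 : χ j = g
  · rw [if_pos hg1]
    linarith
  · rw [if_neg hg1]
    by_cases hg2 : prv p.length χ j = g
    · have := exc_neg p χ g _ hn2 _ hj' rfl (by
        have h5 := h1 _ hj' hRj'
        have h6 := h1 _ hj hRj
        have h7 := hχ j hj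
        have h8 := hprvlt j hj
        rw [hprv] at h5
        omega) (by rw [hprv]; exact hg1)
      linarith
    · have := exc_neg p χ g _ hn1 _ hj rfl hg1 hg2
      linarith

/-- contribution of the breaks at `u` -/
def bsum {a : V} (p : G.Walk a a) (χ : ℕ → ℕ) (Br : ℕ → Prop) [DecidablePred Br] (g : ℕ) (u : V) :
    ℤ :=
  ∑ i ∈ (Finset.range p.length).filter (fun i => p.getVert i = u ∧ Br i), wt p.length χ g i

/-- colorings with breaks at vertices where the local conditions hold -/
theorem seg_coloring {a : V} {p : G.Walk a a} (hE : p.IsEulerian) (hp : 0 < p.length)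
    (χ σ : ℕ → ℕ) (hχ : ∀ i < p.length, χ i < 3) (hσ : ∀ i < p.length, σ i = 1 ∨ σ i = 2)
    (Br : ℕ → Prop) [DecidablePred Br]
    (h1 : ∀ i < p.length, ¬ Br i →
      χ i = (prv p.length χ i + prv p.length σ i) % 3 ∧ σ i = prv p.length σ i)
    (h2 : ∀ i < p.length, Br i → ∀ g < 3, bsum p χ Br g (p.getVert i) ≤ 0 ∧
      (g = (χ i + σ i) % 3 → bsum p χ Br g (p.getVert i) ≤ -1) ∧
      (g = (prv p.length χ i + 2 * prv p.length σ i) % 3 → bsum p χ Br g (p.getVert i) ≤ -1)) :
    ∃ c : G.edgeSet → Fin 3, IsStrongMajorityColoring G c := by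
  apply core hE hp χ _ hχ
  intro j hj g hg
  have hj' := nx_lt hj
  have hprv := prv_nx (m := p.length) (j := j) χ
  have hprvσ := prv_nx (m := p.length) (j := j) σ
  have hget := getVert_nx p hj
  rw [← hget]
  have hprvlt : ∀ i < p.length, prv p.length χ i < 3 := by
    intro i hi
    unfold prv
    split_ifs
    · exact hχ _ (by omega)
    · exact hχ _ (by omega)
  have hprvσ' : ∀ i < p.length, prv p.length σ i = 1 ∨ prv p.length σ i = 2 := by
    intro i hi
    unfold prv
    split_ifs
    · exact hσ _ (by omega)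
    · exact hσ _ (by omega)
  have hne : ∀ i < p.length, ¬ Br i → χ i ≠ prv p.length χ i := by
    intro i hi hBi
    have e1 := (h1 i hi hBi).1
    have e2 := hprvlt i hi
    have e3 := hprvσ' i hi
    omega
  -- decomposition
  have hdec : ∀ u, exc p χ g u = bsum p χ Br g u +
      ∑ i ∈ (Finset.range p.length).filter (fun i => p.getVert i = u ∧ ¬ Br i),
        wt p.length χ g i := by
    intro u
    rw [exc_eq, bsum, ← Finset.filter_filter, ← Finset.filter_filter,
      Finset.sum_filter_add_sum_filter_not]
  have hrest : ∀ u, ∑ i ∈ (Finset.range p.length).filter (fun i => p.getVert i = u ∧ ¬ Br i),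
        wt p.length χ g i ≤ 0 := by
    intro u
    apply Finset.sum_nonpos
    intro i hi
    simp only [Finset.mem_filter, Finset.mem_range] at hi
    exact wt_nonpos (hne i hi.1 hi.2.2)
  have hrest' : ∀ i < p.length, ¬ Br i → χ i ≠ g → prv p.length χ i ≠ g →
      ∑ i ∈ (Finset.range p.length).filter (fun k => p.getVert k = p.getVert i ∧ ¬ Br k),
        wt p.length χ g i ≤ -1 := by
    intro i hi hBi e1 e2
    rw [← Finset.add_sum_erase _ _ (by simp [hi, hBi] : i ∈ (Finset.range p.length).filter
      (fun k => p.getVert k = p.getVert i ∧ ¬ Br k)), wt_neg e1 e2]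
    have : ∑ x ∈ ((Finset.range p.length).filter
      (fun k => p.getVert k = p.getVert i ∧ ¬ Br k)).erase i, wt p.length χ g x ≤ 0 := by
      apply Finset.sum_nonpos
      intro i hi
      simp only [Finset.mem_erase, Finset.mem_filter, Finset.mem_range] at hi
      exact wt_nonpos (hne i hi.2.1 hi.2.2.2)
    linarith
  have hb0 : ∀ u, bsum p χ Br g u ≤ 0 := by
    intro u
    by_cases hu : ∃ i < p.length, p.getVert i = u ∧ Br i
    · obtain ⟨i, hi, rfl, hBi⟩ := hu
      exact (h2 i hi hBi g hg).1
    · push Not at hu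
      have : (Finset.range p.length).filter (fun i => p.getVert i = u ∧ Br i) = ∅ := by
        rw [Finset.filter_eq_empty_iff]
        intro i hi
        rw [Finset.mem_range] at hi
        rintro ⟨e1, e2⟩
        exact hu i hi e1 e2
      rw [bsum, this, Finset.sum_empty]
  have hx0 : ∀ u, exc p χ g u ≤ 0 := by
    intro u
    rw [hdec]
    have := hb0 u
    have := hrest u
    linarith
  by_cases hg1 : χ j = g
  · rw [if_pos hg1]
    have := hx0 (p.getVert j)
    have := hx0 (p.getVert (nx p.length j))
    linarith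
  rw [if_neg hg1]
  have hcase : g = (χ j + σ j) % 3 ∨ g = (χ j + 2 * σ j) % 3 := by
    have e1 := hχ j hj
    have e2 := hσ j hj
    omega
  rcases hcase with hc | hc
  · have key : exc p χ g (p.getVert j) ≤ -1 := by
      rw [hdec]
      by_cases hBj : Br j
      · have e1 := (h2 j hj hBj g hg).2.1 hc
        have e2 := hrest (p.getVert j)
        linarith
      · have e1 := hrest' j hj hBj hg1 (by
          have e1 := (h1 j hj hBj)
          have e2 := hprvlt j hj
          have e3 := hprvσ' j hj
          omega)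
        have e2 := hb0 (p.getVert j)
        linarith
    have := hx0 (p.getVert (nx p.length j))
    linarith
  · have key : exc p χ g (p.getVert (nx p.length j)) ≤ -1 := by
      rw [hdec]
      by_cases hBj : Br (nx p.length j)
      · have e1 := (h2 _ hj' hBj g hg).2.2 (by rw [hprv, hprvσ]; exact hc)
        have e2 := hrest (p.getVert (nx p.length j))
        linarith
      · have e1 := hrest' _ hj' hBj (by
          have e1 := (h1 _ hj' hBj).1
          rw [hprv, hprvσ] at e1
          have e2 := hχ j hj
          have e3 := hσ j hj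
          omega) (by rw [hprv]; exact hg1)
        have e2 := hb0 (p.getVert (nx p.length j))
        linarith
    have := hx0 (p.getVert j)
    linarith

end Pool.Agent.H48Maj
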