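import Mathlib

/-!
Definitions for MP_dcf3dc_co: strong majority edge-colorings.
-/

namespace Pool.Agent.H48Maj

open SimpleGraph

/-- `AdjEdge u v f`: the edge `f` shares exactly one endpoint with the edge `uv`,
that is `|f ∩ {u, v}| = 1`. -/
def AdjEdge {V : Type*} (u v : V) (f : Sym2 V) : Prop :=
  (u ∈ f ∧ v ∉ f) ∨ (u ∉ f ∧ v ∈ f)

/-- `c` is a strong majority edge-coloring of the finite graph `G` with color set `C`: for every
edge `uv` and every color `i`, the number of edges of color `i` adjacent to `uv` is at most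
`(d(u) + d(v)) / 2 - 1`. -/
def IsStrongMajorityColoring {V : Type*} [Fintype V] (G : SimpleGraph V) [DecidableRel G.Adj]
    {C : Type*} (c : G.edgeSet → C) : Prop :=
  ∀ u v : V, G.Adj u v → ∀ i : C,
    (({f : G.edgeSet | AdjEdge u v f.1 ∧ c f = i}.ncard : ℕ) : ℚ) ≤
      ((G.degree u : ℚ) + (G.degree v : ℚ)) / 2 - 1

end Pool.Agent.H48Maj
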