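import Pool.Agent.H48Maj.Euler
import Pool.Agent.H48Maj.Defs

/-!
From a colored Eulerian circuit to a strong majority coloring.
-/

namespace Pool.Agent.H48Maj

open SimpleGraph

universe u
variable {V : Type u} {G : SimpleGraph V}

theorem edges_eq_map_range {a b : V} (p : G.Walk a b) :
    p.edges = (List.range p.length).map (fun j => s(p.getVert j, p.getVert (j + 1))) := by
  induction p with
  | nil => simp
  | @cons u v w h p ih =>
    rw [Walk.edges_cons, Walk.length_cons, List.range_succ_eq_map, List.map_cons, List.map_map, ih]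
    simp [Function.comp_def]

set_option linter.unusedSectionVars false

variable [Fintype V] [DecidableEq V] [DecidableRel G.Adj]

/-- the `j`-th edge -/
def ed {a b : V} (p : G.Walk a b) (j : ℕ) : Sym2 V := s(p.getVert j, p.getVert (j + 1))

theorem edgeFinset_eq {a b : V} {p : G.Walk a b} (hE : p.IsEulerian) :
    G.edgeFinset = (Finset.range p.length).image (ed p) := by
  ext e
  rw [mem_edgeFinset, ← hE.mem_edges_iff, edges_eq_map_range]
  simp [ed]

theorem ed_inj {a b : V} {p : G.Walk a b} (hE : p.IsEulerian) :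
    Set.InjOn (ed p) (Finset.range p.length : Finset ℕ) := by
  have h := hE.isTrail.edges_nodup
  rw [edges_eq_map_range] at h
  have := (List.nodup_map_iff_inj_on (List.nodup_range)).mp h
  intro i hi j hj hij
  simp only [Finset.coe_range, Set.mem_Iio] at hi hj
  exact this i (List.mem_range.mpr hi) j (List.mem_range.mpr hj) hij

theorem idxOf_ed {a b : V} {p : G.Walk a b} (hE : p.IsEulerian) {j : ℕ} (hj : j < p.length) :
    p.edges.idxOf (ed p j) = j := by
  have hlen : j < p.edges.length := by rwa [p.length_edges]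
  have h1 : p.edges[j] = ed p j := by
    simp [edges_eq_map_range, ed]
  rw [← h1]
  exact hE.isTrail.edges_nodup.idxOf_getElem j hlen

/-- the color before position `i` -/
def prv (m : ℕ) (χ : ℕ → ℕ) (i : ℕ) : ℕ := if i = 0 then χ (m - 1) else χ (i - 1)

/-- excess at `u` in color `g` -/
def exc {a : V} (p : G.Walk a a) (χ : ℕ → ℕ) (g : ℕ) (u : V) : ℤ :=
  ∑ i ∈ (Finset.range p.length).filter (fun i => p.getVert i = u),
    (((if χ i = g then 1 else 0) + (if prv p.length χ i = g then 1 else 0) : ℤ) - 1)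

theorem sum_shift {a : V} (p : G.Walk a a) (w : ℕ → ℤ) (u : V) (hp : 0 < p.length) :
    (∑ j ∈ Finset.range p.length, if p.getVert (j + 1) = u then w j else 0) =
      ∑ j ∈ Finset.range p.length, if p.getVert j = u then (if j = 0 then w (p.length - 1)
        else w (j - 1)) else 0 := by
  obtain ⟨n, hn⟩ : ∃ n, p.length = n + 1 := ⟨p.length - 1, by omega⟩
  rw [hn, Finset.sum_range_succ, Finset.sum_range_succ' (n := n)]
  congr 1
  have h1 : p.getVert (n + 1) = a := by rw [← hn, Walk.getVert_length]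
  simp [h1]

theorem sum_edges {a : V} {p : G.Walk a a} (hE : p.IsEulerian) (hp : 0 < p.length) (w : ℕ → ℤ)
    (u : V) :
    (∑ e ∈ G.edgeFinset, if u ∈ e then w (p.edges.idxOf e) else 0) =
      ∑ j ∈ (Finset.range p.length).filter (fun i => p.getVert i = u),
        (w j + (if j = 0 then w (p.length - 1) else w (j - 1))) := by
  rw [edgeFinset_eq hE, Finset.sum_image (ed_inj hE), Finset.sum_filter]
  have h1 : ∀ j ∈ Finset.range p.length,
      (if u ∈ ed p j then w (p.edges.idxOf (ed p j)) else 0) =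
      (if p.getVert j = u then w j else 0) + (if p.getVert (j + 1) = u then w j else 0) := by
    intro j hj
    rw [Finset.mem_range] at hj
    rw [idxOf_ed hE hj]
    have hne : p.getVert j ≠ p.getVert (j + 1) := (p.adj_getVert_succ hj).ne
    simp only [ed, Sym2.mem_iff]
    by_cases h2 : p.getVert j = u
    · have h3 : p.getVert (j + 1) ≠ u := fun h => hne (h2.trans h.symm)
      have h4 : u ≠ p.getVert (j + 1) := h3.symm
      simp [h2, h3]
    · have h2' : u ≠ p.getVert j := fun h => h2 h.symm
      by_cases h3 : p.getVert (j + 1) = u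
      · simp [h2, h3]
      · have h3' : u ≠ p.getVert (j + 1) := fun h => h3 h.symm
        simp [h2, h3, h2', h3']
  rw [Finset.sum_congr rfl h1, Finset.sum_add_distrib, sum_shift p w u hp,
    ← Finset.sum_add_distrib]
  apply Finset.sum_congr rfl
  intro j _
  split_ifs <;> ring

theorem degree_eq {a : V} {p : G.Walk a a} (hE : p.IsEulerian) (hp : 0 < p.length) (u : V) :
    (G.degree u : ℤ) = 2 * (((Finset.range p.length).filter (fun i => p.getVert i = u)).card : ℤ)
    := by
  have h1 := sum_edges hE hp (fun _ => 1) u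
  rw [← Finset.sum_filter, Finset.sum_const, ← G.incidenceFinset_eq_filter,
    card_incidenceFinset_eq_degree] at h1
  simp only [nsmul_eq_mul, mul_one, ite_self, Finset.sum_const] at h1
  rw [h1]
  ring

theorem core {a : V} {p : G.Walk a a} (hE : p.IsEulerian) (hp : 0 < p.length) (χ : ℕ → ℕ)
    (hloc : ∀ j < p.length, ∀ g < 3,
      exc p χ g (p.getVert j) + exc p χ g (p.getVert (j + 1)) ≤
        2 * (if χ j = g then 1 else 0) - 1) (hχ : ∀ i < p.length, χ i < 3) :
    ∃ c : G.edgeSet → Fin 3, IsStrongMajorityColoring G c := by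
  classical
  refine ⟨fun e => ⟨χ (p.edges.idxOf e.1) % 3, Nat.mod_lt _ (by norm_num)⟩, ?_⟩
  intro u v huv g
  -- the number of edges of color g at u
  have hN : ∀ x : V, (∑ e ∈ G.edgeFinset, if x ∈ e then
      (if χ (p.edges.idxOf e) = g.1 then (1 : ℤ) else 0) else 0) =
      exc p χ g.1 x + (((Finset.range p.length).filter (fun i => p.getVert i = x)).card : ℤ) := by
    intro x
    have h1 := sum_edges hE hp (fun i => if χ i = g.1 then (1 : ℤ) else 0) x
    rw [h1, exc, Finset.sum_sub_distrib, Finset.sum_const, nsmul_eq_mul, mul_one]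
    rw [sub_add_cancel]
    apply Finset.sum_congr rfl
    intro j _
    unfold prv
    split_ifs <;> simp_all
  have hidx : ∀ e ∈ G.edgeFinset, p.edges.idxOf e < p.length := by
    intro e he
    rw [← p.length_edges]
    apply List.idxOf_lt_length_of_mem
    rw [hE.mem_edges_iff]
    simpa using he
  -- rewrite the count
  have hcount : (({f : G.edgeSet | AdjEdge u v f.1 ∧
      (⟨χ (p.edges.idxOf f.1) % 3, Nat.mod_lt _ (by norm_num)⟩ : Fin 3) = g}.ncard : ℕ) : ℤ) =
      ∑ e ∈ G.edgeFinset, if (AdjEdge u v e ∧ χ (p.edges.idxOf e) = g.1) then (1 : ℤ) else 0 := by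
    have h1 : {f : G.edgeSet | AdjEdge u v f.1 ∧
      (⟨χ (p.edges.idxOf f.1) % 3, Nat.mod_lt _ (by norm_num)⟩ : Fin 3) = g}.ncard =
      ((fun f : G.edgeSet => f.1) '' {f : G.edgeSet | AdjEdge u v f.1 ∧
      (⟨χ (p.edges.idxOf f.1) % 3, Nat.mod_lt _ (by norm_num)⟩ : Fin 3) = g}).ncard :=
      (Set.ncard_image_of_injective _ Subtype.val_injective).symm
    rw [h1]
    have h2 : ((fun f : G.edgeSet => f.1) '' {f : G.edgeSet | AdjEdge u v f.1 ∧
      (⟨χ (p.edges.idxOf f.1) % 3, Nat.mod_lt _ (by norm_num)⟩ : Fin 3) = g}) =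
      ((G.edgeFinset.filter (fun e => AdjEdge u v e ∧ χ (p.edges.idxOf e) = g.1) :
        Finset (Sym2 V)) : Set (Sym2 V)) := by
      ext e
      constructor
      · rintro ⟨⟨f, hf⟩, ⟨h4, h5⟩, rfl⟩
        have hf' : f ∈ G.edgeFinset := mem_edgeFinset.mpr hf
        have h6 := congrArg Fin.val h5
        simp only at h6 h4
        rw [Nat.mod_eq_of_lt (hχ _ (hidx f hf'))] at h6
        rw [Finset.mem_coe, Finset.mem_filter]
        exact ⟨hf', h4, h6⟩
      · intro h3
        rw [Finset.mem_coe, Finset.mem_filter] at h3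
        obtain ⟨h3, h4, h5⟩ := h3
        refine ⟨⟨e, mem_edgeFinset.mp h3⟩, ⟨h4, ?_⟩, rfl⟩
        apply Fin.ext
        simp only
        rw [Nat.mod_eq_of_lt (hχ _ (hidx e h3))]
        exact h5
    rw [h2, Set.ncard_coe_finset, Finset.card_filter]
    push_cast
    rfl
  -- inclusion-exclusion
  have he : s(u, v) ∈ G.edgeFinset := by simpa using huv
  have hsplit : (∑ e ∈ G.edgeFinset,
      if (AdjEdge u v e ∧ χ (p.edges.idxOf e) = g.1) then (1 : ℤ) else 0) =
      (∑ e ∈ G.edgeFinset, if u ∈ e then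
        (if χ (p.edges.idxOf e) = g.1 then (1 : ℤ) else 0) else 0) +
      (∑ e ∈ G.edgeFinset, if v ∈ e then
        (if χ (p.edges.idxOf e) = g.1 then (1 : ℤ) else 0) else 0) -
      2 * (if χ (p.edges.idxOf s(u, v)) = g.1 then 1 else 0) := by
    have h3 : (2 * (if χ (p.edges.idxOf s(u, v)) = g.1 then 1 else 0) : ℤ) =
        ∑ e ∈ G.edgeFinset, if e = s(u, v) then
          (2 * (if χ (p.edges.idxOf e) = g.1 then 1 else 0) : ℤ) else 0 := by
      rw [Finset.sum_ite_eq']
      simp [huv]
    rw [h3, ← Finset.sum_add_distrib, ← Finset.sum_sub_distrib]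
    apply Finset.sum_congr rfl
    intro e he'
    by_cases h4 : e = s(u, v)
    · subst h4
      simp only [AdjEdge, Sym2.mem_iff, true_or, or_true, not_true_eq_false, and_false, or_false,
        false_and, if_true, if_false]
      ring
    · have h5 : ¬ (u ∈ e ∧ v ∈ e) := by
        intro h5
        exact h4 ((Sym2.mem_and_mem_iff huv.ne).mp h5)
      simp only [h4, if_false, AdjEdge]
      by_cases h6 : u ∈ e <;> by_cases h7 : v ∈ e <;> simp_all
  have hj := hidx _ he
  have hfin : (({f : G.edgeSet | AdjEdge u v f.1 ∧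
      (⟨χ (p.edges.idxOf f.1) % 3, Nat.mod_lt _ (by norm_num)⟩ : Fin 3) = g}.ncard : ℕ) : ℤ) * 2 ≤
      G.degree u + G.degree v - 2 := by
    rw [hcount, hsplit, hN, hN, degree_eq hE hp u, degree_eq hE hp v]
    have h8 := hloc _ hj g.1 g.2
    have h9 : ed p (p.edges.idxOf s(u, v)) = s(u, v) := by
      have : s(u, v) ∈ p.edges := by
        rw [hE.mem_edges_iff]
        simpa using huv
      have h11 : ∀ (l : ℕ) (hl : l < p.edges.length), p.edges[l] = ed p l := by
        intro l hl
        simp [edges_eq_map_range, ed]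
      rw [← h11 _ (List.idxOf_lt_length_of_mem this)]
      exact List.getElem_idxOf _
    unfold ed at h9
    rw [Sym2.eq_iff] at h9
    rcases h9 with ⟨h9, h10⟩ | ⟨h9, h10⟩
    · rw [h9, h10] at h8
      linarith
    · rw [h9, h10] at h8
      linarith
  have hfin' : (({f : G.edgeSet | AdjEdge u v f.1 ∧
      (⟨χ (p.edges.idxOf f.1) % 3, Nat.mod_lt _ (by norm_num)⟩ : Fin 3) = g}.ncard : ℕ) : ℚ) * 2 ≤
      G.degree u + G.degree v - 2 := by
    exact_mod_cast hfin
  linarith

end Pool.Agent.H48Maj
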