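import Mathlib

/-!
Existence of Eulerian circuits in finite connected graphs with all degrees even.
-/

namespace Pool.Agent.H48Maj

open SimpleGraph

universe u
variable {V : Type u} {G : SimpleGraph V}

theorem countP_nodup_eq {α : Type*} [DecidableEq α] (l : List α) (hl : l.Nodup) (P : α → Prop)
    [DecidablePred P] : l.countP (fun e => P e) = (l.toFinset.filter P).card := by
  rw [List.countP_eq_length_filter, ← List.toFinset_card_of_nodup (hl.filter _),
    List.toFinset_filter]
  simp

/-- number of edges of a trail at `x`, via the degree. -/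
theorem countP_eq_degree_of_isEulerian [Fintype V] [DecidableEq V] [DecidableRel G.Adj]
    {u v : V} {p : G.Walk u v} (ht : p.IsEulerian) (x : V) :
    (p.edges.countP fun e => x ∈ e) = G.degree x := by
  rw [countP_nodup_eq _ ht.isTrail.edges_nodup, ← card_incidenceFinset_eq_degree,
    G.incidenceFinset_eq_filter x]
  congr 1
  ext e
  simp [ht.mem_edges_iff]

theorem countP_le_degree_of_isTrail [Fintype V] [DecidableEq V] [DecidableRel G.Adj]
    {u v : V} {p : G.Walk u v} (ht : p.IsTrail) (x : V) :
    (p.edges.countP fun e => x ∈ e) ≤ G.degree x := by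
  rw [countP_nodup_eq _ ht.edges_nodup, ← card_incidenceFinset_eq_degree,
    G.incidenceFinset_eq_filter x]
  apply Finset.card_le_card
  intro e he
  simp only [Finset.mem_filter, List.mem_toFinset] at he
  simp only [Finset.mem_filter, mem_edgeFinset]
  exact ⟨p.edges_subset_edgeSet he.1, he.2⟩

theorem exists_unused_edge [Fintype V] [DecidableEq V] [DecidableRel G.Adj]
    {u v : V} {p : G.Walk u v} (ht : p.IsTrail) (x : V)
    (hlt : (p.edges.countP fun e => x ∈ e) < G.degree x) :
    ∃ y, G.Adj x y ∧ s(x, y) ∉ p.edges := by
  by_contra hcon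
  push Not at hcon
  apply absurd hlt
  rw [not_lt, countP_nodup_eq _ ht.edges_nodup, ← card_incidenceFinset_eq_degree,
    G.incidenceFinset_eq_filter x]
  apply Finset.card_le_card
  intro e he
  simp only [Finset.mem_filter, mem_edgeFinset] at he
  simp only [Finset.mem_filter, List.mem_toFinset]
  refine ⟨?_, he.2⟩
  obtain ⟨h1, h2⟩ := he
  induction e with
  | h a b =>
    simp only [Sym2.mem_iff] at h2
    rcases h2 with rfl | rfl
    · exact hcon b h1
    · have := hcon a (SimpleGraph.Adj.symm h1)
      rw [Sym2.eq_swap] at this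
      exact this

theorem length_le_of_isTrail [Fintype V] [DecidableEq V] [DecidableRel G.Adj]
    {u v : V} {p : G.Walk u v} (ht : p.IsTrail) : p.length ≤ G.edgeFinset.card := by
  rw [← p.length_edges]
  have : p.edges.toFinset ⊆ G.edgeFinset := by
    intro e he
    simp only [List.mem_toFinset] at he
    simpa using p.edges_subset_edgeSet he
  calc p.edges.length = p.edges.toFinset.card := by
        rw [List.toFinset_card_of_nodup ht.edges_nodup]
    _ ≤ _ := Finset.card_le_card this

/-- a longest trail exists -/
theorem exists_max_trail [Fintype V] [DecidableEq V] [DecidableRel G.Adj] (a : V) :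
    ∃ (u v : V) (p : G.Walk u v), p.IsTrail ∧
      ∀ (u' v' : V) (q : G.Walk u' v'), q.IsTrail → q.length ≤ p.length := by
  classical
  let P : ℕ → Prop := fun n => ∃ (u v : V) (p : G.Walk u v), p.IsTrail ∧ p.length = n
  have h0 : P 0 := ⟨a, a, Walk.nil, by simp, rfl⟩
  have hb : ∀ n, P n → n ≤ G.edgeFinset.card := by
    rintro n ⟨u, v, p, hp, rfl⟩
    exact length_le_of_isTrail hp
  obtain ⟨u, v, p, hp, hl⟩ := Nat.findGreatest_spec (P := P) (Nat.zero_le _) h0
  refine ⟨u, v, p, hp, ?_⟩
  intro u' v' q hq
  rw [hl]
  exact Nat.le_findGreatest (hb _ ⟨u', v', q, hq, rfl⟩) ⟨u', v', q, hq, rfl⟩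

theorem isTrail_concat {u v w : V} {p : G.Walk u v} (hp : p.IsTrail) (h : G.Adj v w)
    (hn : s(v, w) ∉ p.edges) : (p.concat h).IsTrail := by
  rw [Walk.isTrail_def] at hp ⊢
  rw [Walk.edges_concat, List.concat_eq_append, List.nodup_append]
  refine ⟨hp, by simp, ?_⟩
  intro a ha b hb hab
  simp only [List.mem_singleton] at hb
  subst hb
  subst hab
  exact hn ha

theorem exists_eulerian_circuit [Fintype V] [DecidableEq V] [DecidableRel G.Adj]
    (hc : G.Connected) (he : ∀ v, Even (G.degree v)) (a : V) :
    ∃ p : G.Walk a a, p.IsEulerian := by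
  obtain ⟨u, v, p, hp, hmax⟩ := exists_max_trail (G := G) a
  -- closed
  have huv : u = v := by
    by_contra huv
    have h1 := hp.even_countP_edges_iff v
    have h2 : ¬ Even (p.edges.countP fun e => v ∈ e) := by
      rw [h1]
      intro h
      exact (h huv).2 rfl
    have hlt : (p.edges.countP fun e => v ∈ e) < G.degree v := by
      rcases (countP_le_degree_of_isTrail hp v).lt_or_eq with h | h
      · exact h
      · rw [h] at h2
        exact absurd (he v) h2
    obtain ⟨y, hy, hy2⟩ := exists_unused_edge hp v hlt
    have := hmax _ _ _ (isTrail_concat hp hy hy2)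
    simp at this
  subst huv
  -- no unused edge at a vertex of the support
  have hsup : ∀ w ∈ p.support, ∀ y, G.Adj w y → s(w, y) ∈ p.edges := by
    intro w hw y hwy
    by_contra hn
    have hrot : (p.rotate w hw).IsTrail := hp.rotate hw
    have hn' : s(w, y) ∉ (p.rotate w hw).edges := by
      rw [(p.rotate_edges w hw).perm.mem_iff]
      exact hn
    have := hmax _ _ _ (isTrail_concat hrot hwy hn')
    simp at this
  -- every vertex in the support
  have hall : ∀ w, w ∈ p.support := by
    intro w
    obtain ⟨q⟩ := hc.preconnected u w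
    have key : ∀ (x y : V) (q : G.Walk x y), x ∈ p.support → y ∈ p.support := by
      intro x y q
      induction q with
      | nil => exact id
      | cons h q ih =>
        intro hx
        exact ih (p.snd_mem_support_of_mem_edges (hsup _ hx _ h))
    exact key _ _ q p.start_mem_support
  have hEul : p.IsEulerian := by
    refine hp.isEulerian_of_forall_mem ?_
    intro e
    induction e with
    | h x y =>
      intro hxy
      exact hsup x (hall x) y hxy
  refine ⟨p.rotate a (hall a), ?_⟩
  intro e he
  rw [(p.rotate_edges a (hall a)).perm.count_eq]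
  exact hEul e he

end Pool.Agent.H48Maj
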