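import Pool.Agent.H48Maj.Color
import Pool.Agent.H48Maj.Table

/-!
Coloring of two closed trails with four common vertices.
-/

namespace Pool.Agent.H48Maj

open SimpleGraph

set_option linter.unusedSectionVars false

/-! ### Reading the table -/

theorem row_spec (p q r hi tab : ℕ) : ∀ n, rowchk p q r hi tab n = true →
    ∀ i < n, ∃ e, tchk p q r (hi * 81 + i) e = true := by
  intro n
  induction n with
  | zero => intro _ i hi; omega
  | succ n ih =>
    intro h i hi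
    rw [rowchk, Bool.and_eq_true] at h
    rcases Nat.lt_succ_iff_lt_or_eq.mp hi with hi | rfl
    · exact ih h.2 i hi
    · exact ⟨_, h.1⟩

theorem tab_spec (p q r : ℕ) : ∀ (ts : List ℕ) (hi : ℕ), tabchk p q r hi ts = true →
    ∀ j < ts.length, ∀ i < 81, ∃ e, tchk p q r ((hi + j) * 81 + i) e = true := by
  intro ts
  induction ts with
  | nil => intro hi _ j hj; simp at hj
  | cons t ts ih =>
    intro hi h j hj i hi'
    rw [tabchk, Bool.and_eq_true] at h
    cases j with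
    | zero => exact row_spec p q r hi t 81 h.1 i hi'
    | succ j =>
      have := ih (hi + 1) h.2 j (by simpa using hj) i hi'
      rw [show hi + (j + 1) = hi + 1 + j by omega]
      exact this

theorem tab_all (p q r : ℕ) (ts : ℕ → List ℕ) (hlen : ∀ c < 9, (ts c).length = 9)
    (h : ∀ c < 9, tabchk p q r (9 * c) (ts c) = true) :
    ∀ x < 6561, ∃ e, tchk p q r x e = true := by
  intro x hx
  have h1 : x / 729 < 9 := by omega
  have h2 := tab_spec p q r _ _ (h (x / 729) h1) ((x / 81) % 9) (by rw [hlen _ h1]; omega)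
    (x % 81) (by omega)
  have h3 : (9 * (x / 729) + x / 81 % 9) * 81 + x % 81 = x := by omega
  rwa [h3] at h2

theorem all0 : ∀ x < 6561, ∃ e, tchk 6 5 7 x e = true := by
  refine tab_all 6 5 7 (fun c => match c with
    | 0 => tab0_0 | 1 => tab0_1 | 2 => tab0_2 | 3 => tab0_3 | 4 => tab0_4 | 5 => tab0_5
    | 6 => tab0_6 | 7 => tab0_7 | _ => tab0_8) ?_ ?_
  · intro c hc
    interval_cases c <;> rfl
  · intro c hc
    interval_cases c
    exacts [tab0_0_ok, tab0_1_ok, tab0_2_ok, tab0_3_ok, tab0_4_ok, tab0_5_ok, tab0_6_ok,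
      tab0_7_ok, tab0_8_ok]

theorem all1 : ∀ x < 6561, ∃ e, tchk 5 6 7 x e = true := by
  refine tab_all 5 6 7 (fun c => match c with
    | 0 => tab1_0 | 1 => tab1_1 | 2 => tab1_2 | 3 => tab1_3 | 4 => tab1_4 | 5 => tab1_5
    | 6 => tab1_6 | 7 => tab1_7 | _ => tab1_8) ?_ ?_
  · intro c hc
    interval_cases c <;> rfl
  · intro c hc
    interval_cases c
    exacts [tab1_0_ok, tab1_1_ok, tab1_2_ok, tab1_3_ok, tab1_4_ok, tab1_5_ok, tab1_6_ok,
      tab1_7_ok, tab1_8_ok]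

theorem all2 : ∀ x < 6561, ∃ e, tchk 5 7 6 x e = true := by
  refine tab_all 5 7 6 (fun c => match c with
    | 0 => tab2_0 | 1 => tab2_1 | 2 => tab2_2 | 3 => tab2_3 | 4 => tab2_4 | 5 => tab2_5
    | 6 => tab2_6 | 7 => tab2_7 | _ => tab2_8) ?_ ?_
  · intro c hc
    interval_cases c <;> rfl
  · intro c hc
    interval_cases c
    exacts [tab2_0_ok, tab2_1_ok, tab2_2_ok, tab2_3_ok, tab2_4_ok, tab2_5_ok, tab2_6_ok,
      tab2_7_ok, tab2_8_ok]

/-! ### Meaning of the tables -/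

def nxt (c : ℕ) : ℕ := (c / 2 + (c % 2 + 1)) % 3

def cntN (c1 c2 c3 c4 g : ℕ) : ℕ :=
  (if c1 / 2 = g then 1 else 0) + (if c2 / 2 = g then 1 else 0) +
  (if c3 / 2 = g then 1 else 0) + (if c4 / 2 = g then 1 else 0)

/-- local conditions at a vertex -/
def LC (c1 c2 c3 c4 : ℕ) : Prop :=
  (c1 < 6 ∧ c2 < 6 ∧ c3 < 6 ∧ c4 < 6) ∧ ∀ g < 3, cntN c1 c2 c3 c4 g ≤ 2 ∧
      (g = nxt c1 → cntN c1 c2 c3 c4 g ≤ 1) ∧ (g = nxt c2 → cntN c1 c2 c3 c4 g ≤ 1) ∧
      (g = nxt c3 → cntN c1 c2 c3 c4 g ≤ 1) ∧ (g = nxt c4 → cntN c1 c2 c3 c4 g ≤ 1)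

instance (c1 c2 c3 c4 : ℕ) : Decidable (LC c1 c2 c3 c4) := by
  unfold LC
  infer_instance

theorem valid_spec : ∀ c1 < 8, ∀ c2 < 8, ∀ c3 < 8, ∀ c4 < 8, vbit c1 c2 c3 c4 = true →
    LC c1 c2 c3 c4 := by
  decide +kernel

theorem endc_spec : ∀ r < 3, ∀ c < 6, endc r c / 2 = (c / 2 + (c % 2 + 1) * (r + 2)) % 3 ∧
    nxt (endc r c) = ((c / 2 + (c % 2 + 1) * (r + 2)) % 3 + 2 * (c % 2 + 1)) % 3 := by
  decide +kernel

theorem code_lt (e k : ℕ) : code e k < 8 := Nat.mod_lt _ (by norm_num)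
theorem endc_lt (r c : ℕ) : endc r c < 8 := Nat.mod_lt _ (by norm_num)
theorem cR_lt (x k : ℕ) : cR x k < 3 := Nat.mod_lt _ (by norm_num)

/-! ### The coloring -/

theorem mono_of {T : ℕ → ℕ} (hmono : ∀ k < 8, T k < T (k + 1)) :
    ∀ k l, k < l → l ≤ 8 → T k < T l := by
  intro k l hkl
  induction l with
  | zero => omega
  | succ l ih =>
    intro hl
    rcases Nat.lt_succ_iff_lt_or_eq.mp hkl with h | rfl
    · exact (ih h (by omega)).trans (hmono l (by omega))
    · exact hmono k (by omega)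

/-- segment index of a position -/
def seg (T : ℕ → ℕ) (i : ℕ) : ℕ := Nat.findGreatest (fun k => T k ≤ i) 7

theorem seg_eq {T : ℕ → ℕ} (hmono : ∀ k < 8, T k < T (k + 1)) {k i : ℕ} (hk : k < 8)
    (h1 : T k ≤ i) (h2 : i < T (k + 1)) : seg T i = k := by
  unfold seg
  rw [Nat.findGreatest_eq_iff]
  refine ⟨by omega, fun _ => h1, ?_⟩
  intro n hn hn7
  rw [not_le]
  rcases Nat.lt_or_eq_of_le (show k + 1 ≤ n from hn) with h | h
  · exact h2.trans (mono_of hmono _ _ h (by omega))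
  · rw [← h]
    exact h2

theorem seg_spec {T : ℕ → ℕ} (hT0 : T 0 = 0) {i : ℕ} (hi : i < T 8) :
    seg T i < 8 ∧ T (seg T i) ≤ i ∧ i < T (seg T i + 1) := by
  have h1 : seg T i ≤ 7 := Nat.findGreatest_le 7
  have h2 : T (seg T i) ≤ i :=
    Nat.findGreatest_spec (P := fun k => T k ≤ i) (Nat.zero_le 7) (by simp [hT0])
  refine ⟨by omega, h2, ?_⟩
  rcases Nat.lt_or_eq_of_le h1 with h | h
  · have := Nat.findGreatest_is_greatest (P := fun k => T k ≤ i) (n := 7) (k := seg T i + 1)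
      (Nat.lt_succ_self _) (by omega)
    omega
  · rw [h]
    exact hi

/-- the color of a position -/
def chi (T : ℕ → ℕ) (e i : ℕ) : ℕ :=
  (code e (seg T i) / 2 + (code e (seg T i) % 2 + 1) * (i - T (seg T i))) % 3

/-- the sign of a position -/
def sgn (T : ℕ → ℕ) (e i : ℕ) : ℕ := code e (seg T i) % 2 + 1

/-- residues encoded -/
def resx (T : ℕ → ℕ) : ℕ := ∑ k ∈ Finset.range 8, ((T (k + 1) - T k) % 3) * 3 ^ k

theorem digit_eq (a : ℕ → ℕ) (ha : ∀ j, a j < 3) {k : ℕ} (hk : k < 8) :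
    ((∑ j ∈ Finset.range 8, a j * 3 ^ j) / 3 ^ k) % 3 = a k := by
  have h0 := ha 0
  have h1 := ha 1
  have h2 := ha 2
  have h3 := ha 3
  have h4 := ha 4
  have h5 := ha 5
  have h6 := ha 6
  have h7 := ha 7
  simp only [Finset.sum_range_succ, Finset.sum_range_zero]
  interval_cases k <;> omega

theorem cR_resx (T : ℕ → ℕ) {k : ℕ} (hk : k < 8) : cR (resx T) k = (T (k + 1) - T k) % 3 :=
  digit_eq (fun j => (T (j + 1) - T j) % 3) (fun j => Nat.mod_lt _ (by norm_num)) hk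

theorem resx_lt (T : ℕ → ℕ) : resx T < 6561 := by
  have h : ∀ j, (T (j + 1) - T j) % 3 < 3 := fun j => Nat.mod_lt _ (by norm_num)
  have h0 := h 0
  have h1 := h 1
  have h2 := h 2
  have h3 := h 3
  have h4 := h 4
  have h5 := h 5
  have h6 := h 6
  have h7 := h 7
  simp only [resx, Finset.sum_range_succ, Finset.sum_range_zero]
  omega

theorem prv_T {T : ℕ → ℕ} (hT0 : T 0 = 0) (hmono : ∀ k < 8, T k < T (k + 1)) (h : ℕ → ℕ) {k : ℕ}
    (hk : k < 8) : prv (T 8) h (T k) = h (T ((k + 7) % 8 + 1) - 1) := by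
  unfold prv
  rcases Nat.eq_zero_or_pos k with rfl | hk0
  · simp [hT0]
  · have h1 : T 0 < T k := mono_of hmono 0 k hk0 (by omega)
    have h2 : (k + 7) % 8 + 1 = k := by omega
    rw [h2, if_neg (by omega)]

theorem chi_start {T : ℕ → ℕ} (hmono : ∀ k < 8, T k < T (k + 1)) {e k : ℕ} (hk : k < 8)
    (hc : code e k < 6) : chi T e (T k) = code e k / 2 ∧ sgn T e (T k) = code e k % 2 + 1 := by
  have h1 : seg T (T k) = k := seg_eq hmono hk le_rfl (hmono k hk)
  unfold chi sgn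
  rw [h1]
  simp
  omega

theorem chi_end {T : ℕ → ℕ} (hmono : ∀ k < 8, T k < T (k + 1)) {e k : ℕ} (hk : k < 8)
    (hc : code e k < 6) :
    chi T e (T (k + 1) - 1) = endc (cR (resx T) k) (code e k) / 2 ∧
    (chi T e (T (k + 1) - 1) + 2 * sgn T e (T (k + 1) - 1)) % 3 =
      nxt (endc (cR (resx T) k) (code e k)) := by
  have h0 := hmono k hk
  have h1 : seg T (T (k + 1) - 1) = k := seg_eq hmono hk (by omega) (by omega)
  obtain ⟨h2, h3⟩ := endc_spec (cR (resx T) k) (cR_lt _ _) (code e k) hc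
  rw [h2, h3, cR_resx T hk]
  unfold chi sgn
  rw [h1]
  rcases (show code e k % 2 = 0 ∨ code e k % 2 = 1 by omega) with h4 | h4 <;> rw [h4] <;> omega

universe u
variable {V : Type u} {G : SimpleGraph V}
variable [Fintype V] [DecidableEq V] [DecidableRel G.Adj]

theorem pair_cond {a : V} {p : G.Walk a a} {T : ℕ → ℕ} (hT0 : T 0 = 0) (hT8 : T 8 = p.length)
    (hmono : ∀ k < 8, T k < T (k + 1)) (e : ℕ) (hcode : ∀ k < 8, code e k < 6)
    (Br : ℕ → Prop) [DecidablePred Br] (hBr : ∀ i, Br i ↔ ∃ k < 8, i = T k)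
    {k l : ℕ} (hk : k < 8) (hl : l < 8) (hkl : k ≠ l)
    (hfl : p.getVert (T k) = p.getVert (T l))
    (hcl : ∀ j < 8, p.getVert (T j) = p.getVert (T k) → j = k ∨ j = l)
    (hLC : LC (code e k) (endc (cR (resx T) ((k + 7) % 8)) (code e ((k + 7) % 8)))
      (code e l) (endc (cR (resx T) ((l + 7) % 8)) (code e ((l + 7) % 8)))) :
    ∀ g < 3, bsum p (chi T e) Br g (p.getVert (T k)) ≤ 0 ∧
      (g = (chi T e (T k) + sgn T e (T k)) % 3 → bsum p (chi T e) Br g (p.getVert (T k)) ≤ -1) ∧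
      (g = (prv p.length (chi T e) (T k) + 2 * prv p.length (sgn T e) (T k)) % 3 →
        bsum p (chi T e) Br g (p.getVert (T k)) ≤ -1) ∧
      (g = (chi T e (T l) + sgn T e (T l)) % 3 → bsum p (chi T e) Br g (p.getVert (T k)) ≤ -1) ∧
      (g = (prv p.length (chi T e) (T l) + 2 * prv p.length (sgn T e) (T l)) % 3 →
        bsum p (chi T e) Br g (p.getVert (T k)) ≤ -1) := by
  intro g hg
  have hTinj : ∀ i < 8, ∀ j < 8, T i = T j → i = j := by
    intro i hi j hj hij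
    rcases Nat.lt_trichotomy i j with h | h | h
    · have := mono_of hmono _ _ h (by omega)
      omega
    · exact h
    · have := mono_of hmono _ _ h (by omega)
      omega
  have hTlt : ∀ i < 8, T i < p.length := by
    intro i hi
    rw [← hT8]
    exact mono_of hmono i 8 hi le_rfl
  have hset : (Finset.range p.length).filter (fun i => p.getVert i = p.getVert (T k) ∧ Br i) =
      {T k, T l} := by
    ext i
    simp only [Finset.mem_filter, Finset.mem_range, Finset.mem_insert, Finset.mem_singleton, hBr]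
    constructor
    · rintro ⟨_, h2, j, hj, rfl⟩
      rcases hcl j hj h2 with rfl | rfl
      · exact Or.inl rfl
      · exact Or.inr rfl
    · rintro (rfl | rfl)
      · exact ⟨hTlt k hk, rfl, k, hk, rfl⟩
      · exact ⟨hTlt l hl, hfl.symm, l, hl, rfl⟩
  have hk' : (k + 7) % 8 < 8 := Nat.mod_lt _ (by norm_num)
  have hl' : (l + 7) % 8 < 8 := Nat.mod_lt _ (by norm_num)
  obtain ⟨s1, s2⟩ := chi_start hmono hk (hcode k hk)
  obtain ⟨s3, s4⟩ := chi_start hmono hl (hcode l hl)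
  obtain ⟨s5, s6⟩ := chi_end hmono hk' (hcode _ hk')
  obtain ⟨s7, s8⟩ := chi_end hmono hl' (hcode _ hl')
  have q1 := prv_T hT0 hmono (chi T e) hk
  have q2 := prv_T hT0 hmono (chi T e) hl
  have q3 := prv_T hT0 hmono (sgn T e) hk
  have q4 := prv_T hT0 hmono (sgn T e) hl
  rw [hT8] at q1 q2 q3 q4
  have hb : bsum p (chi T e) Br g (p.getVert (T k)) =
      (cntN (code e k) (endc (cR (resx T) ((k + 7) % 8)) (code e ((k + 7) % 8)))
      (code e l) (endc (cR (resx T) ((l + 7) % 8)) (code e ((l + 7) % 8))) g : ℤ) - 2 := by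
    rw [bsum, hset, Finset.sum_pair (fun h => hkl (hTinj k hk l hl h)), wt, wt, q1, q2, s1, s3,
      s5, s7, cntN]
    push_cast
    ring
  obtain ⟨c0, c1, c2, c3, c4⟩ := hLC.2 g hg
  rw [hb, q1, q2, q3, q4, s6, s8, s1, s2, s3, s4]
  refine ⟨?_, ?_, ?_, ?_, ?_⟩
  · have : (cntN (code e k) (endc (cR (resx T) ((k + 7) % 8)) (code e ((k + 7) % 8)))
      (code e l) (endc (cR (resx T) ((l + 7) % 8)) (code e ((l + 7) % 8))) g : ℤ) ≤ 2 := by
      exact_mod_cast c0
    linarith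
  · intro h
    have : (cntN (code e k) (endc (cR (resx T) ((k + 7) % 8)) (code e ((k + 7) % 8)))
      (code e l) (endc (cR (resx T) ((l + 7) % 8)) (code e ((l + 7) % 8))) g : ℤ) ≤ 1 := by
      exact_mod_cast c1 h
    linarith
  · intro h
    have : (cntN (code e k) (endc (cR (resx T) ((k + 7) % 8)) (code e ((k + 7) % 8)))
      (code e l) (endc (cR (resx T) ((l + 7) % 8)) (code e ((l + 7) % 8))) g : ℤ) ≤ 1 := by
      exact_mod_cast c2 h
    linarith
  · intro h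
    have : (cntN (code e k) (endc (cR (resx T) ((k + 7) % 8)) (code e ((k + 7) % 8)))
      (code e l) (endc (cR (resx T) ((l + 7) % 8)) (code e ((l + 7) % 8))) g : ℤ) ≤ 1 := by
      exact_mod_cast c3 h
    linarith
  · intro h
    have : (cntN (code e k) (endc (cR (resx T) ((k + 7) % 8)) (code e ((k + 7) % 8)))
      (code e l) (endc (cR (resx T) ((l + 7) % 8)) (code e ((l + 7) % 8))) g : ℤ) ≤ 1 := by
      exact_mod_cast c4 h
    linarith


theorem closure_lem {W : Type*} (F : ℕ → W) (P Q R : ℕ)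
    (hpair : (P = 6 ∧ Q = 5 ∧ R = 7) ∨ (P = 5 ∧ Q = 6 ∧ R = 7) ∨ (P = 5 ∧ Q = 7 ∧ R = 6))
    (h04 : F 0 = F 4) (h1P : F 1 = F P) (h2Q : F 2 = F Q) (h3R : F 3 = F R)
    (n01 : F 0 ≠ F 1) (n02 : F 0 ≠ F 2) (n03 : F 0 ≠ F 3) (n12 : F 1 ≠ F 2)
    (n13 : F 1 ≠ F 3) (n23 : F 2 ≠ F 3) :
    (∀ j < 8, F j = F 0 → j = 0 ∨ j = 4) ∧ (∀ j < 8, F j = F 1 → j = 1 ∨ j = P) ∧
    (∀ j < 8, F j = F 2 → j = 2 ∨ j = Q) ∧ (∀ j < 8, F j = F 3 → j = 3 ∨ j = R) := by
  rcases hpair with ⟨rfl, rfl, rfl⟩ | ⟨rfl, rfl, rfl⟩ | ⟨rfl, rfl, rfl⟩ <;>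
    refine ⟨?_, ?_, ?_, ?_⟩ <;> intro j hj h <;> interval_cases j <;> grind

/-- the main coloring lemma for two closed trails with four common vertices -/
theorem four_coloring {a : V} {p : G.Walk a a} (hE : p.IsEulerian) {T : ℕ → ℕ} (hT0 : T 0 = 0)
    (hT8 : T 8 = p.length) (hmono : ∀ k < 8, T k < T (k + 1)) (P Q R : ℕ)
    (hpair : (P = 6 ∧ Q = 5 ∧ R = 7) ∨ (P = 5 ∧ Q = 6 ∧ R = 7) ∨ (P = 5 ∧ Q = 7 ∧ R = 6))
    (h04 : p.getVert (T 0) = p.getVert (T 4)) (h1P : p.getVert (T 1) = p.getVert (T P))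
    (h2Q : p.getVert (T 2) = p.getVert (T Q)) (h3R : p.getVert (T 3) = p.getVert (T R))
    (n01 : p.getVert (T 0) ≠ p.getVert (T 1)) (n02 : p.getVert (T 0) ≠ p.getVert (T 2))
    (n03 : p.getVert (T 0) ≠ p.getVert (T 3)) (n12 : p.getVert (T 1) ≠ p.getVert (T 2))
    (n13 : p.getVert (T 1) ≠ p.getVert (T 3)) (n23 : p.getVert (T 2) ≠ p.getVert (T 3)) :
    ∃ c : G.edgeSet → Fin 3, IsStrongMajorityColoring G c := by
  classical
  have hp : 0 < p.length := by
    rw [← hT8, ← hT0]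
    exact mono_of hmono 0 8 (by norm_num) le_rfl
  have hex : ∃ e, tchk P Q R (resx T) e = true := by
    rcases hpair with ⟨rfl, rfl, rfl⟩ | ⟨rfl, rfl, rfl⟩ | ⟨rfl, rfl, rfl⟩
    · exact all0 _ (resx_lt T)
    · exact all1 _ (resx_lt T)
    · exact all2 _ (resx_lt T)
  obtain ⟨e, he⟩ := hex
  rw [tchk, Bool.and_eq_true, Bool.and_eq_true, Bool.and_eq_true] at he
  obtain ⟨v0, v1, v2, v3⟩ := he
  have L0 := valid_spec _ (code_lt _ _) _ (endc_lt _ _) _ (code_lt _ _) _ (endc_lt _ _) v0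
  have L1 := valid_spec _ (code_lt _ _) _ (endc_lt _ _) _ (code_lt _ _) _ (endc_lt _ _) v1
  have L2 := valid_spec _ (code_lt _ _) _ (endc_lt _ _) _ (code_lt _ _) _ (endc_lt _ _) v2
  have L3 := valid_spec _ (code_lt _ _) _ (endc_lt _ _) _ (code_lt _ _) _ (endc_lt _ _) v3
  have hcode : ∀ k < 8, code e k < 6 := by
    intro k hk
    have a0 := L0.1.1
    have a4 := L0.1.2.2.1
    have a1 := L1.1.1
    have aP := L1.1.2.2.1
    have a2 := L2.1.1
    have aQ := L2.1.2.2.1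
    have a3 := L3.1.1
    have aR := L3.1.2.2.1
    rcases hpair with ⟨rfl, rfl, rfl⟩ | ⟨rfl, rfl, rfl⟩ | ⟨rfl, rfl, rfl⟩ <;>
      interval_cases k <;> assumption
  let Br : ℕ → Prop := fun i => ∃ k < 8, i = T k
  have hlt : ∀ i < p.length, seg T i < 8 ∧ T (seg T i) ≤ i ∧ i < T (seg T i + 1) := by
    intro i hi
    exact seg_spec hT0 (by rw [hT8]; exact hi)
  refine seg_coloring hE hp (chi T e) (sgn T e) ?_ ?_ Br ?_ ?_
  · intro i _
    exact Nat.mod_lt _ (by norm_num)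
  · intro i _
    unfold sgn
    omega
  · intro i hi hBi
    obtain ⟨h1, h2, h3⟩ := hlt i hi
    have h4 : i ≠ T (seg T i) := fun h => hBi ⟨seg T i, h1, h⟩
    have h5 : i ≠ 0 := by
      rintro rfl
      exact hBi ⟨0, by norm_num, hT0.symm⟩
    have h6 : seg T (i - 1) = seg T i := seg_eq hmono h1 (by omega) (by omega)
    unfold prv
    rw [if_neg h5, if_neg h5]
    unfold chi sgn
    rw [h6]
    refine ⟨?_, rfl⟩
    obtain ⟨d, hd⟩ : ∃ d, i = T (seg T i) + 1 + d := ⟨i - T (seg T i) - 1, by omega⟩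
    have h7 : i - T (seg T i) = d + 1 := by omega
    have h8 : i - 1 - T (seg T i) = d := by omega
    rw [h7, h8]
    rcases (show code e (seg T i) % 2 = 0 ∨ code e (seg T i) % 2 = 1 by omega) with h9 | h9 <;>
      rw [h9] <;> omega
  · -- the local conditions
    have hpc : ∀ k < 8, ∀ l < 8, k ≠ l → p.getVert (T k) = p.getVert (T l) →
        (∀ j < 8, p.getVert (T j) = p.getVert (T k) → j = k ∨ j = l) →
        LC (code e k) (endc (cR (resx T) ((k + 7) % 8)) (code e ((k + 7) % 8)))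
        (code e l) (endc (cR (resx T) ((l + 7) % 8)) (code e ((l + 7) % 8))) → _ :=
      fun k hk l hl hkl hfl hcl hLC =>
        pair_cond hT0 hT8 hmono e hcode Br (fun i => Iff.rfl) hk hl hkl hfl hcl hLC
    have fin : ∀ k < 8, ∀ l < 8, k ≠ l → p.getVert (T k) = p.getVert (T l) →
        (∀ j < 8, p.getVert (T j) = p.getVert (T k) → j = k ∨ j = l) →
        LC (code e k) (endc (cR (resx T) ((k + 7) % 8)) (code e ((k + 7) % 8)))
        (code e l) (endc (cR (resx T) ((l + 7) % 8)) (code e ((l + 7) % 8))) →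
        ∀ i, (i = T k ∨ i = T l) → ∀ g < 3,
          bsum p (chi T e) Br g (p.getVert i) ≤ 0 ∧
          (g = (chi T e i + sgn T e i) % 3 → bsum p (chi T e) Br g (p.getVert i) ≤ -1) ∧
          (g = (prv p.length (chi T e) i + 2 * prv p.length (sgn T e) i) % 3 →
            bsum p (chi T e) Br g (p.getVert i) ≤ -1) := by
      intro k hk l hl hkl hfl hcl hLC i hi g hg
      obtain ⟨b1, b2, b3, b4, b5⟩ := hpc k hk l hl hkl hfl hcl hLC g hg
      rcases hi with rfl | rfl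
      · exact ⟨b1, b2, b3⟩
      · rw [← hfl]
        exact ⟨b1, b4, b5⟩
    obtain ⟨K0, K1, K2, K3⟩ := closure_lem (fun k => p.getVert (T k)) P Q R hpair h04 h1P h2Q h3R
      n01 n02 n03 n12 n13 n23
    clear n01 n02 n03 n12 n13 n23 hpc
    rintro i hi ⟨k, hk, rfl⟩ g hg
    rcases hpair with ⟨rfl, rfl, rfl⟩ | ⟨rfl, rfl, rfl⟩ | ⟨rfl, rfl, rfl⟩
    · have F0 := fin 0 (by norm_num) 4 (by norm_num) (by norm_num) h04 K0 L0
      have F1 := fin 1 (by norm_num) 6 (by norm_num) (by norm_num) h1P K1 L1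
      have F2 := fin 2 (by norm_num) 5 (by norm_num) (by norm_num) h2Q K2 L2
      have F3 := fin 3 (by norm_num) 7 (by norm_num) (by norm_num) h3R K3 L3
      interval_cases k
      · exact F0 _ (Or.inl rfl) g hg
      · exact F1 _ (Or.inl rfl) g hg
      · exact F2 _ (Or.inl rfl) g hg
      · exact F3 _ (Or.inl rfl) g hg
      · exact F0 _ (Or.inr rfl) g hg
      · exact F2 _ (Or.inr rfl) g hg
      · exact F1 _ (Or.inr rfl) g hg
      · exact F3 _ (Or.inr rfl) g hg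
    · have F0 := fin 0 (by norm_num) 4 (by norm_num) (by norm_num) h04 K0 L0
      have F1 := fin 1 (by norm_num) 5 (by norm_num) (by norm_num) h1P K1 L1
      have F2 := fin 2 (by norm_num) 6 (by norm_num) (by norm_num) h2Q K2 L2
      have F3 := fin 3 (by norm_num) 7 (by norm_num) (by norm_num) h3R K3 L3
      interval_cases k
      · exact F0 _ (Or.inl rfl) g hg
      · exact F1 _ (Or.inl rfl) g hg
      · exact F2 _ (Or.inl rfl) g hg
      · exact F3 _ (Or.inl rfl) g hg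
      · exact F0 _ (Or.inr rfl) g hg
      · exact F1 _ (Or.inr rfl) g hg
      · exact F2 _ (Or.inr rfl) g hg
      · exact F3 _ (Or.inr rfl) g hg
    · have F0 := fin 0 (by norm_num) 4 (by norm_num) (by norm_num) h04 K0 L0
      have F1 := fin 1 (by norm_num) 5 (by norm_num) (by norm_num) h1P K1 L1
      have F2 := fin 2 (by norm_num) 7 (by norm_num) (by norm_num) h2Q K2 L2
      have F3 := fin 3 (by norm_num) 6 (by norm_num) (by norm_num) h3R K3 L3
      interval_cases k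
      · exact F0 _ (Or.inl rfl) g hg
      · exact F1 _ (Or.inl rfl) g hg
      · exact F2 _ (Or.inl rfl) g hg
      · exact F3 _ (Or.inl rfl) g hg
      · exact F0 _ (Or.inr rfl) g hg
      · exact F1 _ (Or.inr rfl) g hg
      · exact F3 _ (Or.inr rfl) g hg
      · exact F2 _ (Or.inr rfl) g hg

end Pool.Agent.H48Maj
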