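import Pool.Agent.H48Maj.Split

/-!
Existence of an initial valid split.
-/

namespace Pool.Agent.H48Maj

open SimpleGraph

universe u
variable {V : Type u} {G : SimpleGraph V}
variable [Fintype V] [DecidableEq V] [DecidableRel G.Adj]

theorem exists_valid {a : V} (p : G.Walk a a) (hE : p.IsEulerian) (hlen : 4 ≤ p.length)
    (h : ∀ i, 1 ≤ i → i + 1 < p.length → 4 ≤ G.degree (p.getVert i)) :
    ∃ (b : V) (S R : G.Walk b b), Valid S R := by
  match p, hE, hlen, h with
  | Walk.cons (v := b) h1 (Walk.cons (v := c) h2 p3), hE, hlen, h =>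
  have hnd := hE.isTrail.edges_nodup
  simp only [Walk.length_cons] at hlen
  have hb4 : 4 ≤ G.degree b := by
    have h0 := h 1 le_rfl (by simp only [Walk.length_cons]; omega)
    have e0 : (Walk.cons h1 (Walk.cons h2 p3)).getVert 1 = b := by simp
    rw [e0] at h0
    exact h0
  have hc4 : 4 ≤ G.degree c := by
    have h0 := h 2 (by omega) (by simp only [Walk.length_cons]; omega)
    have e0 : (Walk.cons h1 (Walk.cons h2 p3)).getVert 2 = c := by simp
    rw [e0] at h0
    exact h0
  have hab : a ≠ b := h1.ne
  have hbc : b ≠ c := h2.ne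
  have hac : a ≠ c := by
    rintro rfl
    simp [Sym2.eq_swap] at hnd
  have hperm : ∀ {x y : V} (W : G.Walk x y), List.Perm
      (Walk.cons h1 (Walk.cons h2 p3)).edges W.edges → W.IsEulerian :=
    fun W hW => isEulerian_of_perm hE hW
  -- second occurrence of `b`
  have hb : b ∈ p3.support := by
    have h3 := countP_add (Walk.cons h1 (Walk.cons h2 p3)) b
    rw [countP_eq_degree_of_isEulerian hE] at h3
    simp only [hab.symm, if_false, Walk.support_cons] at h3
    rw [List.count_cons_of_ne hab, List.count_cons_self] at h3
    rw [← List.count_pos_iff]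
    omega
  obtain ⟨T, U, hTU⟩ : ∃ (T : G.Walk c b) (U : G.Walk b a), p3 = T.append U :=
    ⟨_, _, (p3.take_spec hb).symm⟩
  have hU : 0 < U.length := by
    rcases Nat.eq_zero_or_pos U.length with h0 | h0
    · exact absurd (Walk.eq_of_length_eq_zero h0).symm hab
    · exact h0
  have hp3 : p3.length = T.length + U.length := by rw [hTU, Walk.length_append]
  have hTget : ∀ i ≤ T.length, T.getVert i = p3.getVert i := by
    intro i hi
    rw [hTU, Walk.getVert_append]
    split_ifs with h5
    · rfl
    · have : i = T.length := by omega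
      subst this
      simp
  have hTdeg : ∀ w ∈ T.support, 4 ≤ G.degree w := by
    intro w hw
    rw [Walk.mem_support_iff_exists_getVert] at hw
    obtain ⟨i, rfl, hi⟩ := hw
    rcases hi.lt_or_eq with hi | hi
    · have h6 := h (i + 2) (by omega) (by simp only [Walk.length_cons]; omega)
      rw [Walk.getVert_cons_succ, Walk.getVert_cons_succ, ← hTget i hi.le] at h6
      exact h6
    · rw [hi, Walk.getVert_length]
      exact hb4
  by_cases hQ4 : 4 ≤ (Walk.cons h2 T).support.toFinset.card
  · refine ⟨b, Walk.cons h2 T, U.append (Walk.cons h1 Walk.nil), ?_, hQ4, ?_⟩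
    · apply hperm
      rw [hTU, ← Multiset.coe_eq_coe]
      simp only [Walk.edges_append, Walk.edges_cons, Walk.edges_nil, ← Multiset.coe_add,
        ← Multiset.cons_coe, Multiset.coe_nil]
      simp only [← Multiset.singleton_add]
      abel
    · intro w hw
      rw [Walk.support_cons, List.mem_cons] at hw
      rcases hw with rfl | hw
      · exact hb4
      · exact hTdeg w hw
  have hQtrail : (Walk.cons h2 T).IsTrail := by
    rw [Walk.isTrail_def]
    subst hTU
    simp only [Walk.edges_append, Walk.edges_cons, List.nodup_cons, List.nodup_append,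
      List.mem_append, List.mem_cons] at hnd ⊢
    tauto
  obtain ⟨y, z, e1, e2, e3, hQ⟩ := exists_triangle (Walk.cons h2 T) hQtrail (by simp) (by omega)
  have hT2 : T.length = 2 := by
    have := congrArg Walk.length hQ
    simpa using this
  have hb2 : p3.getVert 2 = b := by
    rw [← hTget 2 (by omega), ← hT2]
    simp
  -- second occurrence of `c`
  have hc : 2 ≤ p3.support.count c := by
    have h3 := countP_add (Walk.cons h1 (Walk.cons h2 p3)) c
    rw [countP_eq_degree_of_isEulerian hE] at h3
    simp only [hac.symm, if_false, Walk.support_cons] at h3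
    rw [List.count_cons_of_ne hac, List.count_cons_of_ne hbc] at h3
    omega
  cases p3 with
  | nil => simp at hp3; omega
  | @cons _ d _ h3 p4 =>
  rw [Walk.support_cons, List.count_cons_self] at hc
  have hc' : c ∈ p4.support := by
    rw [← List.count_pos_iff]
    omega
  obtain ⟨T', U', hTU'⟩ : ∃ (T' : G.Walk d c) (U' : G.Walk c a), p4 = T'.append U' :=
    ⟨_, _, (p4.take_spec hc').symm⟩
  have hU' : 0 < U'.length := by
    rcases Nat.eq_zero_or_pos U'.length with h0 | h0
    · exact absurd (Walk.eq_of_length_eq_zero h0).symm hac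
    · exact h0
  have hp4 : p4.length = T'.length + U'.length := by rw [hTU', Walk.length_append]
  have hTget' : ∀ i ≤ T'.length, T'.getVert i = p4.getVert i := by
    intro i hi
    rw [hTU', Walk.getVert_append]
    split_ifs with h5
    · rfl
    · have : i = T'.length := by omega
      subst this
      simp
  have hTdeg' : ∀ w ∈ T'.support, 4 ≤ G.degree w := by
    intro w hw
    rw [Walk.mem_support_iff_exists_getVert] at hw
    obtain ⟨i, rfl, hi⟩ := hw
    rcases hi.lt_or_eq with hi | hi
    · have h6 := h (i + 3) (by omega) (by simp only [Walk.length_cons]; omega)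
      rw [Walk.getVert_cons_succ, Walk.getVert_cons_succ, Walk.getVert_cons_succ,
        ← hTget' i hi.le] at h6
      exact h6
    · rw [hi, Walk.getVert_length]
      exact hc4
  by_cases hQ4' : 4 ≤ (Walk.cons h3 T').support.toFinset.card
  · refine ⟨c, Walk.cons h3 T', U'.append (Walk.cons h1 (Walk.cons h2 Walk.nil)), ?_, hQ4', ?_⟩
    · apply hperm
      rw [hTU', ← Multiset.coe_eq_coe]
      simp only [Walk.edges_append, Walk.edges_cons, Walk.edges_nil, ← Multiset.coe_add,
        ← Multiset.cons_coe, Multiset.coe_nil]
      simp only [← Multiset.singleton_add]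
      abel
    · intro w hw
      rw [Walk.support_cons, List.mem_cons] at hw
      rcases hw with rfl | hw
      · exact hc4
      · exact hTdeg' w hw
  have hQtrail' : (Walk.cons h3 T').IsTrail := by
    rw [Walk.isTrail_def]
    subst hTU'
    simp only [Walk.edges_append, Walk.edges_cons, List.nodup_cons, List.nodup_append,
      List.mem_append, List.mem_cons] at hnd ⊢
    tauto
  obtain ⟨y', z', e1', e2', e3', hQ'⟩ :=
    exists_triangle (Walk.cons h3 T') hQtrail' (by simp) (by omega)
  have hT2' : T'.length = 2 := by
    have := congrArg Walk.length hQ'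
    simpa using this
  have hc2 : p4.getVert 2 = c := by
    rw [← hTget' 2 (by omega), ← hT2']
    simp
  exfalso
  have hb1 : p4.getVert 1 = b := by simpa using hb2
  match p4, hb1, hc2, hp4, hnd with
  | Walk.nil, _, _, hp4, _ => simp at hp4; omega
  | Walk.cons _ Walk.nil, _, _, hp4, _ => simp at hp4; omega
  | Walk.cons h4 (Walk.cons h5 p6), hb1, hc2, _, hnd =>
    simp at hb1 hc2
    subst hb1
    subst hc2
    simp at hnd

end Pool.Agent.H48Maj
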