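import Pool.Agent.H48Maj.Four
import Pool.Agent.H48Maj.Init

/-!
Every connected graph with all degrees even has a strong majority 3-edge-coloring.
-/

namespace Pool.Agent.H48Maj

open SimpleGraph

set_option linter.unusedSectionVars false

universe u
variable {V : Type u} {G : SimpleGraph V}
variable [Fintype V] [DecidableEq V] [DecidableRel G.Adj]

/-- the breakpoints -/
def bp (i1 i2 i3 L j1 j2 j3 m : ℕ) : ℕ → ℕ
  | 0 => 0
  | 1 => i1
  | 2 => i2
  | 3 => i3
  | 4 => L
  | 5 => L + j1
  | 6 => L + j2
  | 7 => L + j3
  | _ => m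

theorem color_sorted {a : V} {S R : G.Walk a a} (hE : (S.append R).IsEulerian) {b c d : V}
    (hab : a ≠ b) (hac : a ≠ c) (had : a ≠ d) (hbc : b ≠ c) (hbd : b ≠ d) (hcd : c ≠ d)
    {i1 i2 i3 : ℕ} (h0 : 0 < i1) (h12 : i1 < i2) (h23 : i2 < i3) (h3 : i3 < S.length)
    (e1 : S.getVert i1 = b) (e2 : S.getVert i2 = c) (e3 : S.getVert i3 = d)
    {j1 j2 j3 : ℕ} (k1 : 0 < j1) (k2 : 0 < j2) (k3 : 0 < j3) (l1 : j1 < R.length)
    (l2 : j2 < R.length) (l3 : j3 < R.length)
    (f1 : R.getVert j1 = b) (f2 : R.getVert j2 = c) (f3 : R.getVert j3 = d) (h13 : j1 < j3) :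
    ∃ c : G.edgeSet → Fin 3, IsStrongMajorityColoring G c := by
  have hS : ∀ i, i < S.length → (S.append R).getVert i = S.getVert i := by
    intro i hi
    rw [Walk.getVert_append, if_pos hi]
  have hR : ∀ j, (S.append R).getVert (S.length + j) = R.getVert j := by
    intro j
    rw [Walk.getVert_append, if_neg (by omega)]
    congr 1
    omega
  have g0 : (S.append R).getVert 0 = a := Walk.getVert_zero _
  have g4 : (S.append R).getVert S.length = a := by
    have := hR 0
    rwa [add_zero, Walk.getVert_zero] at this
  have g1 : (S.append R).getVert i1 = b := by rw [hS _ (by omega), e1]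
  have g2 : (S.append R).getVert i2 = c := by rw [hS _ (by omega), e2]
  have g3 : (S.append R).getVert i3 = d := by rw [hS _ (by omega), e3]
  have r1 : (S.append R).getVert (S.length + j1) = b := by rw [hR, f1]
  have r2 : (S.append R).getVert (S.length + j2) = c := by rw [hR, f2]
  have r3 : (S.append R).getVert (S.length + j3) = d := by rw [hR, f3]
  have hlen : (S.append R).length = S.length + R.length := Walk.length_append _ _
  have h21 : j2 ≠ j1 := by
    rintro rfl
    exact hbc (f1.symm.trans f2)
  have h23' : j2 ≠ j3 := by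
    rintro rfl
    exact hcd (f2.symm.trans f3)
  rcases Nat.lt_or_gt_of_ne h21 with hlt | hlt
  · refine four_coloring hE (T := bp i1 i2 i3 S.length j2 j1 j3 (S.append R).length) rfl rfl ?_
      6 5 7 (Or.inl ⟨rfl, rfl, rfl⟩) ?_ ?_ ?_ ?_ ?_ ?_ ?_ ?_ ?_ ?_
    · intro k hk
      interval_cases k <;> simp only [bp] <;> omega
    all_goals simp only [bp, g0, g1, g2, g3, g4, r1, r2, r3]
    all_goals assumption
  · rcases Nat.lt_or_gt_of_ne h23' with hlt' | hlt'
    · refine four_coloring hE (T := bp i1 i2 i3 S.length j1 j2 j3 (S.append R).length) rfl rfl ?_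
        5 6 7 (Or.inr (Or.inl ⟨rfl, rfl, rfl⟩)) ?_ ?_ ?_ ?_ ?_ ?_ ?_ ?_ ?_ ?_
      · intro k hk
        interval_cases k <;> simp only [bp] <;> omega
      all_goals simp only [bp, g0, g1, g2, g3, g4, r1, r2, r3]
      all_goals assumption
    · refine four_coloring hE (T := bp i1 i2 i3 S.length j1 j3 j2 (S.append R).length) rfl rfl ?_
        5 7 6 (Or.inr (Or.inr ⟨rfl, rfl, rfl⟩)) ?_ ?_ ?_ ?_ ?_ ?_ ?_ ?_ ?_ ?_
      · intro k hk
        interval_cases k <;> simp only [bp] <;> omega
      all_goals simp only [bp, g0, g1, g2, g3, g4, r1, r2, r3]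
      all_goals assumption

theorem color_sorted' {a : V} {S R : G.Walk a a} (hE : (S.append R).IsEulerian) {b c d : V}
    (hab : a ≠ b) (hac : a ≠ c) (had : a ≠ d) (hbc : b ≠ c) (hbd : b ≠ d) (hcd : c ≠ d)
    {i1 i2 i3 : ℕ} (h0 : 0 < i1) (h12 : i1 < i2) (h23 : i2 < i3) (h3 : i3 < S.length)
    (e1 : S.getVert i1 = b) (e2 : S.getVert i2 = c) (e3 : S.getVert i3 = d)
    {j1 j2 j3 : ℕ} (k1 : 0 < j1) (k2 : 0 < j2) (k3 : 0 < j3) (l1 : j1 < R.length)
    (l2 : j2 < R.length) (l3 : j3 < R.length)
    (f1 : R.getVert j1 = b) (f2 : R.getVert j2 = c) (f3 : R.getVert j3 = d) :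
    ∃ c : G.edgeSet → Fin 3, IsStrongMajorityColoring G c := by
  have h13 : j1 ≠ j3 := by
    rintro rfl
    exact hbd (f1.symm.trans f3)
  rcases Nat.lt_or_gt_of_ne h13 with hlt | hlt
  · exact color_sorted hE hab hac had hbc hbd hcd h0 h12 h23 h3 e1 e2 e3 k1 k2 k3 l1 l2 l3
      f1 f2 f3 hlt
  · have hE' : (S.append R.reverse).IsEulerian := by
      refine isEulerian_of_perm hE ?_
      rw [Walk.edges_append, Walk.edges_append, Walk.edges_reverse]
      exact List.Perm.append_left _ (List.reverse_perm _).symm
    have hrev : ∀ j, j < R.length → R.reverse.getVert (R.length - j) = R.getVert j := by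
      intro j hj
      rw [Walk.getVert_reverse]
      congr 1
      omega
    exact color_sorted (R := R.reverse) hE' hab hac had hbc hbd hcd h0 h12 h23 h3 e1 e2 e3
      (j1 := R.length - j1) (j2 := R.length - j2) (j3 := R.length - j3) (by omega) (by omega)
      (by omega) (by rw [Walk.length_reverse]; omega) (by rw [Walk.length_reverse]; omega)
      (by rw [Walk.length_reverse]; omega) (by rw [hrev _ l1, f1]) (by rw [hrev _ l2, f2])
      (by rw [hrev _ l3, f3]) (by omega)

theorem exists_pos {a x : V} (S : G.Walk a a) (hx : x ∈ S.support) (hxa : a ≠ x) :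
    ∃ i, 0 < i ∧ i < S.length ∧ S.getVert i = x := by
  rw [Walk.mem_support_iff_exists_getVert] at hx
  obtain ⟨i, hi, hil⟩ := hx
  refine ⟨i, ?_, ?_, hi⟩
  · rcases Nat.eq_zero_or_pos i with rfl | h
    · rw [Walk.getVert_zero] at hi
      exact absurd hi hxa
    · exact h
  · rcases Nat.lt_or_eq_of_le hil with h | h
    · exact h
    · rw [h, Walk.getVert_length] at hi
      exact absurd hi hxa

theorem color_of_good {a : V} {S R : G.Walk a a} (h : Good S R) :
    ∃ c : G.edgeSet → Fin 3, IsStrongMajorityColoring G c := by
  obtain ⟨hE, h4⟩ := h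
  have ha : a ∈ S.support.toFinset ∩ R.support.toFinset := by simp
  have h3 : 2 < ((S.support.toFinset ∩ R.support.toFinset).erase a).card := by
    rw [Finset.card_erase_of_mem ha]
    omega
  obtain ⟨b, hb, c, hc, d, hd, hbc, hbd, hcd⟩ := Finset.two_lt_card.mp h3
  simp only [Finset.mem_erase, Finset.mem_inter, List.mem_toFinset] at hb hc hd
  obtain ⟨hba, hbS, hbR⟩ := hb
  obtain ⟨hca, hcS, hcR⟩ := hc
  obtain ⟨hda, hdS, hdR⟩ := hd
  obtain ⟨ib, ib0, ibl, hib⟩ := exists_pos S hbS hba.symm
  obtain ⟨ic, ic0, icl, hic⟩ := exists_pos S hcS hca.symm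
  obtain ⟨id, id0, idl, hid⟩ := exists_pos S hdS hda.symm
  obtain ⟨jb, jb0, jbl, hjb⟩ := exists_pos R hbR hba.symm
  obtain ⟨jc, jc0, jcl, hjc⟩ := exists_pos R hcR hca.symm
  obtain ⟨jd, jd0, jdl, hjd⟩ := exists_pos R hdR hda.symm
  have nbc : ib ≠ ic := by
    rintro rfl
    exact hbc (hib.symm.trans hic)
  have nbd : ib ≠ id := by
    rintro rfl
    exact hbd (hib.symm.trans hid)
  have ncd : ic ≠ id := by
    rintro rfl
    exact hcd (hic.symm.trans hid)
  rcases Nat.lt_or_gt_of_ne nbc with o1 | o1 <;> rcases Nat.lt_or_gt_of_ne nbd with o2 | o2 <;>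
    rcases Nat.lt_or_gt_of_ne ncd with o3 | o3
  · exact color_sorted' hE hba.symm hca.symm hda.symm hbc hbd hcd ib0 o1 o3 idl hib hic hid
      jb0 jc0 jd0 jbl jcl jdl hjb hjc hjd
  · exact color_sorted' hE hba.symm hda.symm hca.symm hbd hbc hcd.symm ib0 o2 o3 icl hib hid hic
      jb0 jd0 jc0 jbl jdl jcl hjb hjd hjc
  · omega
  · exact color_sorted' hE hda.symm hba.symm hca.symm hbd.symm hcd.symm hbc id0 o2 o1 icl hid hib
      hic jd0 jb0 jc0 jdl jbl jcl hjd hjb hjc
  · exact color_sorted' hE hca.symm hba.symm hda.symm hbc.symm hcd hbd ic0 o1 o2 idl hic hib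
      hid jc0 jb0 jd0 jcl jbl jdl hjc hjb hjd
  · omega
  · exact color_sorted' hE hca.symm hda.symm hba.symm hcd hbc.symm hbd.symm ic0 o3 o2 ibl hic hid
      hib jc0 jd0 jb0 jcl jdl jbl hjc hjd hjb
  · exact color_sorted' hE hda.symm hca.symm hba.symm hcd.symm hbd.symm hbc.symm id0 o3 o1 ibl
      hid hic hib jd0 jc0 jb0 jdl jcl jbl hjd hjc hjb


/-- a vertex of degree two occurs once on an Eulerian circuit -/
theorem unique_pos {a : V} {p : G.Walk a a} (hE : p.IsEulerian) (hp : 0 < p.length) {i j : ℕ}
    (hi : i < p.length) (hj : j < p.length) (hij : p.getVert i = p.getVert j)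
    (h2 : G.degree (p.getVert j) = 2) : i = j := by
  have h1 := degree_eq hE hp (p.getVert j)
  rw [h2] at h1
  have h3 : ((Finset.range p.length).filter (fun k => p.getVert k = p.getVert j)).card = 1 := by
    push_cast at h1
    omega
  rw [Finset.card_eq_one] at h3
  obtain ⟨x, hx⟩ := h3
  have hi' : i ∈ (Finset.range p.length).filter (fun k => p.getVert k = p.getVert j) := by
    simp [hi, hij]
  have hj' : j ∈ (Finset.range p.length).filter (fun k => p.getVert k = p.getVert j) := by
    simp [hj]
  rw [hx, Finset.mem_singleton] at hi' hj'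
  rw [hi', hj']

theorem adj_pos {a : V} {p : G.Walk a a} (hE : p.IsEulerian) {x y : V} (h : G.Adj x y) :
    ∃ j < p.length, (p.getVert j = x ∧ p.getVert (j + 1) = y) ∨
      (p.getVert j = y ∧ p.getVert (j + 1) = x) := by
  have h1 : s(x, y) ∈ p.edges := by
    rw [hE.mem_edges_iff]
    exact h
  rw [edges_eq_map_range, List.mem_map] at h1
  obtain ⟨j, hj, hj2⟩ := h1
  rw [List.mem_range] at hj
  refine ⟨j, hj, ?_⟩
  rw [Sym2.eq_iff] at hj2
  exact hj2

theorem three_le {a : V} {p : G.Walk a a} (hE : p.IsEulerian) (hp : 0 < p.length) :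
    3 ≤ p.length := by
  by_contra hlt
  have hnd := hE.isTrail.edges_nodup
  match p, hE, hp, hlt, hnd with
  | Walk.cons h Walk.nil, _, _, _, _ => exact absurd rfl h.ne
  | Walk.cons h (Walk.cons h' Walk.nil), _, _, _, hnd => simp [Sym2.eq_swap] at hnd
  | Walk.cons h (Walk.cons h' (Walk.cons h'' w)), _, _, hlt, _ =>
    simp only [Walk.length_cons] at hlt
    omega

theorem pos_degree {a : V} {p : G.Walk a a} (hp : 0 < p.length)
    (hc : G.Connected) (x : V) : 0 < G.degree x := by
  rw [SimpleGraph.degree_pos_iff_exists_adj]
  have hne : Nontrivial V := by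
    refine ⟨p.getVert 0, p.getVert 1, ?_⟩
    exact (p.adj_getVert_succ hp).ne
  exact hc.preconnected.exists_adj_of_nontrivial x

theorem main_theorem (hc : G.Connected) (he : ∀ v, Even (G.degree v)) :
    ∃ c : G.edgeSet → Fin 3, IsStrongMajorityColoring G c := by
  obtain ⟨a⟩ := hc.nonempty
  obtain ⟨p, hE⟩ := exists_eulerian_circuit hc he a
  have hlen : ∀ (b : V) (q : G.Walk b b), q.IsEulerian → q.length = p.length := by
    intro b q hq
    rw [← q.length_edges, ← p.length_edges, ← List.toFinset_card_of_nodup hq.isTrail.edges_nodup,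
      ← List.toFinset_card_of_nodup hE.isTrail.edges_nodup]
    congr 1
    ext e
    simp [hq.mem_edges_iff, hE.mem_edges_iff]
  rcases Nat.eq_zero_or_pos p.length with h0 | hp
  · refine ⟨fun _ => 0, ?_⟩
    intro u v huv
    exfalso
    obtain ⟨j, hj, _⟩ := adj_pos hE huv
    omega
  have hdeg : ∀ x, G.degree x = 2 ∨ 4 ≤ G.degree x := by
    intro x
    have h1 := pos_degree hp hc x
    obtain ⟨k, hk⟩ := he x
    omega
  have h3 := three_le hE hp
  -- the valid case
  have hvalid : (∃ (b : V) (q : G.Walk b b), q.IsEulerian ∧ 4 ≤ q.length ∧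
      ∀ i, 1 ≤ i → i + 1 < q.length → 4 ≤ G.degree (q.getVert i)) →
      ∃ c : G.edgeSet → Fin 3, IsStrongMajorityColoring G c := by
    rintro ⟨b, q, hq, hq4, hqd⟩
    obtain ⟨b', S, R, hV⟩ := exists_valid q hq hq4 hqd
    obtain ⟨b'', S', R', hG⟩ := exists_good S R hV
    exact color_of_good hG
  have hall4 : (∀ x, G.degree x ≠ 2) → ∃ c : G.edgeSet → Fin 3, IsStrongMajorityColoring G c := by
    intro hne
    have h4 : ∀ x, 4 ≤ G.degree x := fun x => (hdeg x).resolve_left (hne x)
    apply hvalid
    refine ⟨a, p, hE, ?_, fun i _ _ => h4 _⟩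
    have h5 := countP_eq_degree_of_isEulerian hE a
    have h6 : (p.edges.countP fun e => a ∈ e) ≤ p.edges.length := List.countP_le_length
    rw [p.length_edges] at h6
    have := h4 a
    omega
  have hmod : p.length % 3 = 0 ∨ p.length % 3 = 1 ∨ p.length % 3 = 2 := by omega
  rcases hmod with hm | hm | hm
  · -- multiple of three
    refine rep_coloring hE hp (fun i => i % 3) (fun i _ => Nat.mod_lt _ (by norm_num))
      (fun _ => False) ?_ ?_ ?_ ?_
    · intro i hi _
      simp only [prv]
      split_ifs with h
      · subst h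
        omega
      · omega
    · intro i _ h
      exact h.elim
    · intro i _ h
      exact h.elim
    · intro i _ h
      exact h.elim
  · -- one modulo three
    by_cases h2 : ∃ v, G.degree v = 2
    · obtain ⟨v, hv⟩ := h2
      obtain ⟨q, hq⟩ := exists_eulerian_circuit hc he v
      have hql := hlen v q hq
      have hq0 : 0 < q.length := by omega
      refine rep_coloring hq hq0 (fun i => i % 3) (fun i _ => Nat.mod_lt _ (by norm_num))
        (fun i => i = 0) ?_ ?_ ?_ ?_
      · intro i hi h
        simp only [prv]
        rw [if_neg h]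
        omega
      · rintro i hi rfl
        simp only [prv, if_true]
        omega
      · rintro r hr rfl i hi hi2
        exact unique_pos hq hq0 hi hr hi2 (by rw [Walk.getVert_zero]; exact hv)
      · rintro r hr rfl r' hr' rfl
        exact G.loopless.irrefl _
    · push Not at h2
      exact hall4 h2
  · -- two modulo three
    by_cases h2 : ∃ v w, v ≠ w ∧ G.degree v = 2 ∧ G.degree w = 2 ∧ ¬ G.Adj v w
    · obtain ⟨v, w, hvw, hv, hw, hnadj⟩ := h2
      obtain ⟨q, hq⟩ := exists_eulerian_circuit hc he v
      have hql := hlen v q hq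
      have hq0 : 0 < q.length := by omega
      have hwq : w ∈ q.support := by
        by_contra hwq
        have h5 := countP_eq_degree_of_isEulerian hq w
        rw [countP_eq_zero_of_not_mem q hwq] at h5
        omega
      obtain ⟨t, ht0, htl, htw⟩ := exists_pos q hwq hvw
      refine rep_coloring hq hq0 (fun i => if i < t then i % 3 else (i - 1) % 3) ?_
        (fun i => i = 0 ∨ i = t) ?_ ?_ ?_ ?_
      · intro i _
        split_ifs <;> exact Nat.mod_lt _ (by norm_num)
      · intro i hi h
        push Not at h
        simp only [prv]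
        rw [if_neg h.1]
        split_ifs <;> omega
      · intro i hi h
        simp only [prv]
        rcases h with rfl | rfl
        · rw [if_pos rfl]
          split_ifs <;> omega
        · rw [if_neg (by omega)]
          split_ifs <;> omega
      · intro r hr hR i hi hi2
        refine unique_pos hq hq0 hi hr hi2 ?_
        rcases hR with rfl | rfl
        · rw [Walk.getVert_zero]; exact hv
        · rw [htw]; exact hw
      · intro r hr hR r' hr' hR'
        rcases hR with rfl | rfl <;> rcases hR' with rfl | rfl
        · exact G.loopless.irrefl _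
        · rw [Walk.getVert_zero, htw]
          exact hnadj
        · rw [Walk.getVert_zero, htw]
          exact fun h => hnadj h.symm
        · exact G.loopless.irrefl _
    · push Not at h2
      by_cases h2' : ∃ v, G.degree v = 2
      · obtain ⟨v, hv⟩ := h2'
        obtain ⟨q, hq⟩ := exists_eulerian_circuit hc he v
        have hql := hlen v q hq
        have hq0 : 0 < q.length := by omega
        -- the neighbours of `v`
        have hnbr : ∀ (q : G.Walk v v), q.IsEulerian → 0 < q.length → ∀ i, 0 < i → i < q.length →
            G.degree (q.getVert i) = 2 → i = 1 ∨ i + 1 = q.length := by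
          intro q hq hq0 i hi0 hi hi2
          have hne : v ≠ q.getVert i := by
            intro h
            have := unique_pos hq hq0 (i := 0) hq0 hi (by rw [Walk.getVert_zero]; exact h) hi2
            omega
          have hadj := h2 v (q.getVert i) hne hv hi2
          obtain ⟨j, hj, hjj⟩ := adj_pos hq hadj
          rcases hjj with ⟨e1, e2⟩ | ⟨e1, e2⟩
          · have hj0 : j = 0 := by
              have := unique_pos hq hq0 (i := 0) hq0 hj (by rw [Walk.getVert_zero, e1])
                (by rw [e1]; exact hv)
              omega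
            subst hj0
            have h1l : 0 + 1 < q.length := by
              have := three_le hq hq0
              omega
            have := unique_pos hq hq0 h1l hi e2 hi2
            omega
          · have := unique_pos hq hq0 hj hi e1 hi2
            subst this
            rcases Nat.lt_or_eq_of_le (show j + 1 ≤ q.length from hj) with h | h
            · exfalso
              have := unique_pos hq hq0 (i := 0) hq0 h (by rw [Walk.getVert_zero, e2])
                (by rw [e2]; exact hv)
              omega
            · exact Or.inr h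
        by_cases hA : G.degree (q.getVert 1) = 2
        · by_cases hB : G.degree (q.getVert (q.length - 1)) = 2
          · exfalso
            have hne : q.getVert 1 ≠ q.getVert (q.length - 1) := by
              intro h
              have := unique_pos hq hq0 (i := 1) (j := q.length - 1) (by omega) (by omega) h hB
              omega
            have hadj := h2 _ _ hne hA hB
            obtain ⟨j, hj, hjj⟩ := adj_pos hq hadj
            rcases hjj with ⟨e1, e2⟩ | ⟨e1, e2⟩
            · have := unique_pos hq hq0 (i := j) (j := 1) hj (by omega) e1 hA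
              subst this
              have := unique_pos hq hq0 (i := 1 + 1) (j := q.length - 1) (by omega) (by omega)
                e2 hB
              omega
            · have := unique_pos hq hq0 (i := j) (j := q.length - 1) hj (by omega) e1 hB
              subst this
              rw [show q.length - 1 + 1 = q.length by omega, Walk.getVert_length] at e2
              have := unique_pos hq hq0 (i := 0) (j := 1) hq0 (by omega)
                (by rw [Walk.getVert_zero]; exact e2) hA
              omega
          · -- reverse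
            apply hvalid
            have hr : q.reverse.IsEulerian := by
              refine isEulerian_of_perm hq ?_
              rw [Walk.edges_reverse]
              exact (List.reverse_perm _).symm
            refine ⟨v, q.reverse, hr, by rw [Walk.length_reverse]; omega, ?_⟩
            intro i hi1 hi2
            rw [Walk.length_reverse] at hi2
            refine (hdeg _).resolve_left ?_
            intro h
            have h5 := hnbr q.reverse hr (by rw [Walk.length_reverse]; omega) i (by omega)
              (by rw [Walk.length_reverse]; omega) h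
            rw [Walk.length_reverse] at h5
            rcases h5 with h5 | h5
            · subst h5
              rw [Walk.getVert_reverse] at h
              exact hB h
            · omega
        · apply hvalid
          refine ⟨v, q, hq, by omega, ?_⟩
          intro i hi1 hi2
          refine (hdeg _).resolve_left ?_
          intro h
          rcases hnbr q hq hq0 i (by omega) (by omega) h with h5 | h5
          · subst h5
            exact hA h
          · omega
      · push Not at h2'
        exact hall4 h2'

end Pool.Agent.H48Maj
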