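import Pool.Agent.H48Maj.Euler

/-!
Splitting an Eulerian circuit into two closed trails with at least four common vertices.
-/

namespace Pool.Agent.H48Maj

open SimpleGraph

universe u
variable {V : Type u} {G : SimpleGraph V}

theorem isEulerian_of_perm [DecidableEq V] {u v u' v' : V} {p : G.Walk u v} {q : G.Walk u' v'}
    (hp : p.IsEulerian) (h : p.edges.Perm q.edges) : q.IsEulerian := by
  intro e he
  rw [← h.count_eq]
  exact hp e he

theorem countP_add [DecidableEq V] {u v : V} (p : G.Walk u v) (x : V) :
    (p.edges.countP fun e => x ∈ e) + (if x = u then 1 else 0) + (if x = v then 1 else 0)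
      = 2 * p.support.count x := by
  induction p with
  | nil =>
    simp only [Walk.edges_nil, List.countP_nil, Walk.support_nil, List.count_singleton]
    split_ifs <;> simp_all
  | @cons a b c h p ih =>
    simp only [Walk.edges_cons, List.countP_cons, Walk.support_cons, List.count_cons]
    have hab : a ≠ b := h.ne
    by_cases h1 : x = a
    · subst h1
      have h2 : x ≠ b := hab
      simp only [h2, if_false] at ih
      simp
      omega
    · by_cases h2 : x = b
      · subst h2
        simp only [if_true] at ih
        have h3 : ¬ (a = x) := fun h => h1 h.symm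
        simp [h1, h3]
        omega
      · have h3 : ¬ (a = x) := fun h => h1 h.symm
        simp only [h2, if_false] at ih
        simp [h1, h2, h3]
        omega

theorem countP_eq_zero_of_not_mem [DecidableEq V] {u v : V} (p : G.Walk u v) {x : V}
    (hx : x ∉ p.support) : (p.edges.countP fun e => x ∈ e) = 0 := by
  rw [List.countP_eq_zero]
  intro e he
  simp only [decide_eq_true_eq]
  intro hxe
  induction e with
  | h a b =>
    simp only [Sym2.mem_iff] at hxe
    rcases hxe with rfl | rfl
    · exact hx (p.fst_mem_support_of_mem_edges he)
    · exact hx (p.snd_mem_support_of_mem_edges he)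

/-- A vertex visited twice in the tail of the support. -/
theorem exists_decomp [DecidableEq V] {u v : V} (S : G.Walk u v) (x : V)
    (hx : 2 ≤ S.support.tail.count x) :
    ∃ (P : G.Walk u x) (Q : G.Walk x x) (P' : G.Walk x v),
      S = P.append (Q.append P') ∧ 0 < P.length ∧ 0 < Q.length := by
  cases S with
  | nil => simp at hx
  | @cons _ b _ h S1 =>
    simp only [Walk.support_cons, List.tail_cons] at hx
    have hx1 : x ∈ S1.support := by
      rw [← List.count_pos_iff]
      omega
    have hspec := S1.take_spec hx1
    have hcount : S1.support.count x =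
        (S1.takeUntil x hx1).support.count x + (S1.dropUntil x hx1).support.tail.count x := by
      conv_lhs => rw [← hspec, Walk.support_append, List.count_append]
    rw [Walk.count_support_takeUntil_eq_one] at hcount
    generalize hD : S1.dropUntil x hx1 = D at *
    cases D with
    | nil =>
      simp only [Walk.support_nil, List.tail_cons, List.count_nil] at hcount
      omega
    | @cons _ c _ h2 D1 =>
      simp only [Walk.support_cons, List.tail_cons] at hcount
      have hx2 : x ∈ D1.support := by
        rw [← List.count_pos_iff]
        omega
      refine ⟨Walk.cons h (S1.takeUntil x hx1), Walk.cons h2 (D1.takeUntil x hx2),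
        D1.dropUntil x hx2, ?_, by simp, by simp⟩
      rw [Walk.cons_append, Walk.cons_append, D1.take_spec hx2, hspec]

/-- Closed trails with at most three vertices are triangles. -/
theorem exists_triangle [DecidableEq V] {x : V} (Q : G.Walk x x) (hQ : Q.IsTrail)
    (h0 : 0 < Q.length) (h3 : Q.support.toFinset.card ≤ 3) :
    ∃ (y z : V) (hxy : G.Adj x y) (hyz : G.Adj y z) (hzx : G.Adj z x),
      Q = Walk.cons hxy (Walk.cons hyz (Walk.cons hzx Walk.nil)) := by
  have hlen : Q.length ≤ 3 := by
    have hsub : Q.edges.toFinset ⊆ Q.support.toFinset.offDiag.image (fun p => s(p.1, p.2)) := by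
      intro e he
      simp only [List.mem_toFinset] at he
      induction e with
      | h a b =>
        simp only [Finset.mem_image, Finset.mem_offDiag, List.mem_toFinset, Prod.exists]
        exact ⟨a, b, ⟨Q.fst_mem_support_of_mem_edges he, Q.snd_mem_support_of_mem_edges he,
          (Q.adj_of_mem_edges he).ne⟩, rfl⟩
    have h1 := Finset.card_le_card hsub
    rw [List.toFinset_card_of_nodup hQ.edges_nodup, Q.length_edges] at h1
    have h2 : (Q.support.toFinset.offDiag.image (fun p => s(p.1, p.2))).card
        = Q.support.toFinset.card.choose 2 :=
      Sym2.card_image_offDiag Q.support.toFinset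
    rw [h2] at h1
    have h4 : Q.support.toFinset.card.choose 2 ≤ Nat.choose 3 2 := Nat.choose_le_choose 2 h3
    have h5 : Nat.choose 3 2 = 3 := by decide
    omega
  match Q, hQ, h0, hlen with
  | Walk.cons h Walk.nil, _, _, _ => exact absurd rfl h.ne
  | Walk.cons h (Walk.cons h' Walk.nil), hQ, _, _ =>
    exfalso
    rw [Walk.isTrail_def] at hQ
    simp [Sym2.eq_swap] at hQ
  | Walk.cons h (Walk.cons h' (Walk.cons h'' Walk.nil)), _, _, _ =>
    exact ⟨_, _, h, h', h'', rfl⟩
  | Walk.cons h (Walk.cons h' (Walk.cons h'' (Walk.cons h''' w))), _, _, hl =>
    simp only [Walk.length_cons] at hl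
    omega

variable [Fintype V] [DecidableEq V] [DecidableRel G.Adj]

/-- a split of the edge set in two closed trails, the first one having at least four vertices,
all of degree at least four. -/
def Valid {a : V} (S R : G.Walk a a) : Prop :=
  (S.append R).IsEulerian ∧ 4 ≤ S.support.toFinset.card ∧ ∀ x ∈ S.support, 4 ≤ G.degree x

def Good {a : V} (S R : G.Walk a a) : Prop :=
  (S.append R).IsEulerian ∧ 4 ≤ (S.support.toFinset ∩ R.support.toFinset).card

/-- the key rerouting -/
theorem op3 {a x y z : V} (P : G.Walk a x) (P' : G.Walk x a) (R : G.Walk a a)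
    (hxy : G.Adj x y) (hyz : G.Adj y z) (hzx : G.Adj z x)
    (hE : ((P.append ((Walk.cons hxy (Walk.cons hyz (Walk.cons hzx Walk.nil))).append P')).append
      R).IsEulerian)
    (hdeg : ∀ w ∈ (P.append ((Walk.cons hxy (Walk.cons hyz
      (Walk.cons hzx Walk.nil))).append P')).support, 4 ≤ G.degree w)
    (hy : y ∈ P.support ∨ y ∈ P'.support) :
    ∃ (b : V) (S' R' : G.Walk b b), Valid S' R' ∧ S'.length < P.length + P'.length + 3 := by
  have hnd := hE.isTrail.edges_nodup
  rcases hy with hy | hy
  · obtain ⟨A, B, rfl⟩ : ∃ (A : G.Walk a y) (B : G.Walk y x), P = A.append B :=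
      ⟨_, _, (P.take_spec hy).symm⟩
    cases B with
    | nil => exact absurd rfl hxy.ne
    | @cons _ t _ h B1 =>
      refine ⟨y, (Walk.cons h B1).append (Walk.cons hzx.symm (Walk.cons hyz.symm Walk.nil)),
        Walk.cons hxy.symm (P'.append (R.append A)), ⟨?_, ?_, ?_⟩, ?_⟩
      · refine isEulerian_of_perm hE ?_
        rw [← Multiset.coe_eq_coe]
        simp only [Walk.edges_append, Walk.edges_cons, Walk.edges_nil, ← Multiset.coe_add,
          ← Multiset.cons_coe, Multiset.coe_nil, Sym2.eq_swap (a := y) (b := x),
          Sym2.eq_swap (a := z) (b := y), Sym2.eq_swap (a := x) (b := z)]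
        simp only [← Multiset.singleton_add]
        abel
      · have htx : t ≠ x := by
          rintro rfl
          simp [Sym2.eq_swap, List.nodup_append] at hnd
        have htz : t ≠ z := by
          rintro rfl
          simp [Sym2.eq_swap, List.nodup_append] at hnd
        have hsub : ({y, t, x, z} : Finset V) ⊆ ((Walk.cons h B1).append
            (Walk.cons hzx.symm (Walk.cons hyz.symm Walk.nil))).support.toFinset := by
          intro w hw
          simp only [Finset.mem_insert, Finset.mem_singleton] at hw
          simp only [List.mem_toFinset, Walk.mem_support_append_iff, Walk.support_cons,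
            List.mem_cons, Walk.support_nil]
          rcases hw with rfl | rfl | rfl | rfl
          · simp
          · simp
          · simp
          · simp
        have hcard : ({y, t, x, z} : Finset V).card = 4 := by
          rw [Finset.card_insert_of_notMem, Finset.card_insert_of_notMem,
            Finset.card_insert_of_notMem, Finset.card_singleton]
          · simp [hzx.ne.symm]
          · simp [htx, htz]
          · simp [hxy.ne.symm, hyz.ne, h.ne]
        rw [← hcard]
        exact Finset.card_le_card hsub
      · intro w hw
        apply hdeg
        simp only [Walk.mem_support_append_iff, Walk.support_cons, List.mem_cons,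
          Walk.support_nil, List.not_mem_nil, or_false] at hw ⊢
        tauto
      · simp only [Walk.length_append, Walk.length_cons, Walk.length_nil]
        omega
  · obtain ⟨B, C, rfl⟩ : ∃ (B : G.Walk x y) (C : G.Walk y a), P' = B.append C :=
      ⟨_, _, (P'.take_spec hy).symm⟩
    cases B with
    | nil => exact absurd rfl hxy.ne
    | @cons _ t _ h B1 =>
      refine ⟨x, (Walk.cons h B1).append (Walk.cons hyz (Walk.cons hzx Walk.nil)),
        Walk.cons hxy (C.append (R.append P)), ⟨?_, ?_, ?_⟩, ?_⟩
      · refine isEulerian_of_perm hE ?_
        rw [← Multiset.coe_eq_coe]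
        simp only [Walk.edges_append, Walk.edges_cons, Walk.edges_nil, ← Multiset.coe_add,
          ← Multiset.cons_coe, Multiset.coe_nil]
        simp only [← Multiset.singleton_add]
        abel
      · have hty : t ≠ y := by
          rintro rfl
          simp [Sym2.eq_swap, List.nodup_append] at hnd
        have htz : t ≠ z := by
          rintro rfl
          simp [Sym2.eq_swap, List.nodup_append] at hnd
        have hsub : ({x, t, y, z} : Finset V) ⊆ ((Walk.cons h B1).append
            (Walk.cons hyz (Walk.cons hzx Walk.nil))).support.toFinset := by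
          intro w hw
          simp only [Finset.mem_insert, Finset.mem_singleton] at hw
          simp only [List.mem_toFinset, Walk.mem_support_append_iff, Walk.support_cons,
            List.mem_cons, Walk.support_nil]
          rcases hw with rfl | rfl | rfl | rfl
          · simp
          · simp
          · simp
          · simp
        have hcard : ({x, t, y, z} : Finset V).card = 4 := by
          rw [Finset.card_insert_of_notMem, Finset.card_insert_of_notMem,
            Finset.card_insert_of_notMem, Finset.card_singleton]
          · simp [hyz.ne]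
          · simp [hty, htz]
          · simp [hxy.ne, hzx.ne.symm, h.ne]
        rw [← hcard]
        exact Finset.card_le_card hsub
      · intro w hw
        apply hdeg
        simp only [Walk.mem_support_append_iff, Walk.support_cons, List.mem_cons,
          Walk.support_nil, List.not_mem_nil, or_false] at hw ⊢
        tauto
      · simp only [Walk.length_append, Walk.length_cons, Walk.length_nil]
        omega

theorem degree_append {a b : V} (S : G.Walk a b) (R : G.Walk b a) (hE : (S.append R).IsEulerian)
    (w : V) :
    G.degree w = (S.edges.countP fun e => w ∈ e) + (R.edges.countP fun e => w ∈ e) := by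
  rw [← countP_eq_degree_of_isEulerian hE, Walk.edges_append, List.countP_append]

theorem good_of_nodup {a : V} (S R : G.Walk a a) (h : Valid S R) (hn : S.support.tail.Nodup) :
    Good S R := by
  obtain ⟨hE, h4, hdeg⟩ := h
  refine ⟨hE, ?_⟩
  have hsub : S.support.toFinset ⊆ R.support.toFinset := by
    intro w hw
    simp only [List.mem_toFinset] at hw ⊢
    by_contra hwR
    have h1 := degree_append S R hE w
    rw [countP_eq_zero_of_not_mem R hwR] at h1
    have h2 := countP_add S w
    have h3 : S.support.count w = (if w = a then 1 else 0) + S.support.tail.count w := by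
      conv_lhs => rw [← Walk.cons_tail_support, List.count_cons]
      rw [add_comm]
      congr 1
      by_cases hwa : w = a
      · simp [hwa]
      · simp [hwa, Ne.symm hwa]
    have h5 : S.support.tail.count w ≤ 1 := List.nodup_iff_count_le_one.mp hn w
    have h6 := hdeg w hw
    omega
  rw [Finset.inter_eq_left.mpr hsub]
  exact h4

theorem exists_good_aux : ∀ (n : ℕ) (a : V) (S R : G.Walk a a), S.length = n → Valid S R →
    ∃ (b : V) (S' R' : G.Walk b b), Good S' R' := by
  intro n
  induction n using Nat.strong_induction_on with
  | _ n ih =>
  intro a S R hn hV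
  by_cases hnd : S.support.tail.Nodup
  · exact ⟨a, S, R, good_of_nodup S R hV hnd⟩
  rw [List.nodup_iff_count_le_one] at hnd
  push Not at hnd
  obtain ⟨x, hx⟩ := hnd
  obtain ⟨P, Q, P', rfl, hP0, hQ0⟩ := exists_decomp S x hx
  obtain ⟨hE, h4, hdeg⟩ := hV
  have hlen : (P.append (Q.append P')).length = P.length + Q.length + P'.length := by
    simp only [Walk.length_append]
    omega
  have hperm : ∀ {b c : V} (W : G.Walk b c), List.Perm
      ((P.append (Q.append P')).append R).edges W.edges → W.IsEulerian :=
    fun W hW => isEulerian_of_perm hE hW
  by_cases hQ4 : 4 ≤ Q.support.toFinset.card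
  · -- use `Q` itself
    refine ih Q.length ?_ x Q (P'.append (R.append P)) rfl ⟨?_, hQ4, ?_⟩
    · omega
    · apply hperm
      rw [← Multiset.coe_eq_coe]
      simp only [Walk.edges_append, ← Multiset.coe_add]
      abel
    · intro w hw
      apply hdeg
      simp only [Walk.mem_support_append_iff]
      tauto
  have hQtrail : Q.IsTrail := by
    rw [Walk.isTrail_def]
    have h1 := hE.isTrail.edges_nodup
    simp only [Walk.edges_append, List.nodup_append] at h1
    tauto
  obtain ⟨y, z, hxy, hyz, hzx, rfl⟩ := exists_triangle Q hQtrail hQ0 (by omega)
  by_cases hy : y ∈ P.support ∨ y ∈ P'.support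
  · obtain ⟨b, S', R', hV', hl⟩ := op3 P P' R hxy hyz hzx hE hdeg hy
    refine ih _ ?_ b S' R' rfl hV'
    simp only [Walk.length_append, Walk.length_cons, Walk.length_nil] at hn
    omega
  by_cases hz : z ∈ P.support ∨ z ∈ P'.support
  · have hE2 : ((P.append ((Walk.cons hzx.symm (Walk.cons hyz.symm
        (Walk.cons hxy.symm Walk.nil))).append P')).append R).IsEulerian := by
      apply hperm
      rw [← Multiset.coe_eq_coe]
      simp only [Walk.edges_append, Walk.edges_cons, Walk.edges_nil, ← Multiset.coe_add,
        ← Multiset.cons_coe, Multiset.coe_nil, Sym2.eq_swap (a := y) (b := x),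
        Sym2.eq_swap (a := z) (b := y), Sym2.eq_swap (a := x) (b := z)]
      simp only [← Multiset.singleton_add]
      abel
    obtain ⟨b, S', R', hV', hl⟩ := op3 P P' R hzx.symm hyz.symm hxy.symm hE2 (by
      intro w hw
      apply hdeg
      simp only [Walk.mem_support_append_iff, Walk.support_cons, List.mem_cons,
        Walk.support_nil, List.not_mem_nil, or_false] at hw ⊢
      tauto) hz
    refine ih _ ?_ b S' R' rfl hV'
    simp only [Walk.length_append, Walk.length_cons, Walk.length_nil] at hn
    omega
  push Not at hy hz
  -- degrees
  have hdegw : ∀ w, G.degree w = (P.edges.countP fun e => w ∈ e)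
      + ((P'.edges.countP fun e => w ∈ e)
      + (((s(x, y) :: s(y, z) :: s(z, x) :: []).countP fun e => w ∈ e)
      + (R.edges.countP fun e => w ∈ e))) := by
    intro w
    rw [degree_append _ _ hE]
    simp only [Walk.edges_append, List.countP_append, Walk.edges_cons, Walk.edges_nil]
    omega
  have hyR : y ∈ R.support := by
    by_contra hyR
    have h1 := hdegw y
    rw [countP_eq_zero_of_not_mem P hy.1, countP_eq_zero_of_not_mem P' hy.2,
      countP_eq_zero_of_not_mem R hyR] at h1
    have h2 : ((s(x, y) :: s(y, z) :: s(z, x) :: []).countP fun e => y ∈ e) ≤ 3 :=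
      List.countP_le_length
    have h3 := hdeg y (by simp [Walk.mem_support_append_iff])
    omega
  have hzR : z ∈ R.support := by
    by_contra hzR
    have h1 := hdegw z
    rw [countP_eq_zero_of_not_mem P hz.1, countP_eq_zero_of_not_mem P' hz.2,
      countP_eq_zero_of_not_mem R hzR] at h1
    have h2 : ((s(x, y) :: s(y, z) :: s(z, x) :: []).countP fun e => z ∈ e) ≤ 3 :=
      List.countP_le_length
    have h3 := hdeg z (by simp [Walk.mem_support_append_iff])
    omega
  by_cases hS4 : 4 ≤ (P'.append P).support.toFinset.card
  · -- move the triangle to `R`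
    obtain ⟨R1, R2, rfl⟩ : ∃ (R1 : G.Walk a y) (R2 : G.Walk y a), R = R1.append R2 :=
      ⟨_, _, (R.take_spec hyR).symm⟩
    refine ih (P'.append P).length ?_ x (P'.append P)
      ((Walk.cons hxy Walk.nil).append (R2.append (R1.append
        (Walk.cons hyz (Walk.cons hzx Walk.nil))))) rfl ⟨?_, hS4, ?_⟩
    · simp only [Walk.length_append, Walk.length_cons, Walk.length_nil] at hn ⊢
      omega
    · apply hperm
      rw [← Multiset.coe_eq_coe]
      simp only [Walk.edges_append, Walk.edges_cons, Walk.edges_nil, ← Multiset.coe_add,
        ← Multiset.cons_coe, Multiset.coe_nil]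
      simp only [← Multiset.singleton_add]
      abel
    · intro w hw
      apply hdeg
      simp only [Walk.mem_support_append_iff] at hw ⊢
      tauto
  · -- bowtie
    have hPPtrail : (P'.append P).IsTrail := by
      rw [Walk.isTrail_def]
      have h1 := hE.isTrail.edges_nodup
      rw [Walk.edges_append, Walk.edges_append, Walk.edges_append] at h1
      have h2 : (P.edges ++ P'.edges).Nodup := by
        refine List.Nodup.sublist ?_ h1
        refine List.Sublist.trans ?_ (List.sublist_append_left _ _)
        exact (List.Sublist.refl _).append (List.sublist_append_right _ _)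
      rw [Walk.edges_append]
      exact (List.perm_append_comm.nodup_iff).mp h2
    obtain ⟨p, q, hxp, hpq, hqx, hPP⟩ := exists_triangle (P'.append P) hPPtrail
      (by rw [Walk.length_append]; omega) (by omega)
    have hcnt : ∀ w, (P.edges.countP fun e => w ∈ e) + (P'.edges.countP fun e => w ∈ e) =
        ((s(x, p) :: s(p, q) :: s(q, x) :: []).countP fun e => w ∈ e) := by
      intro w
      have : (P'.append P).edges = s(x, p) :: s(p, q) :: s(q, x) :: [] := by
        rw [hPP]
        simp
      rw [← this, Walk.edges_append, List.countP_append]
      omega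
    have hsupp : ∀ w, w = p ∨ w = q → w ∈ P.support ∨ w ∈ P'.support := by
      intro w hw
      have : w ∈ (P'.append P).support := by
        rw [hPP]
        rcases hw with rfl | rfl <;> simp
      rw [Walk.mem_support_append_iff] at this
      tauto
    have hy' : y ≠ p ∧ y ≠ q := by
      constructor
      · rintro rfl
        have := hsupp y (Or.inl rfl)
        tauto
      · rintro rfl
        have := hsupp y (Or.inr rfl)
        tauto
    have hz' : z ≠ p ∧ z ≠ q := by
      constructor
      · rintro rfl
        have := hsupp z (Or.inl rfl)
        tauto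
      · rintro rfl
        have := hsupp z (Or.inr rfl)
        tauto
    have hpR : p ∈ R.support := by
      by_contra hpR
      have h1 := hdegw p
      rw [← add_assoc, hcnt, countP_eq_zero_of_not_mem R hpR] at h1
      have h2 : ((s(x, p) :: s(p, q) :: s(q, x) :: []).countP fun e => p ∈ e) ≤ 3 :=
        List.countP_le_length
      have h3 : ((s(x, y) :: s(y, z) :: s(z, x) :: []).countP fun e => p ∈ e) = 0 := by
        simp [hxp.ne.symm, hy'.1.symm, hz'.1.symm]
      have h4 := hdeg p (by
        have := hsupp p (Or.inl rfl)
        simp only [Walk.mem_support_append_iff]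
        tauto)
      omega
    have hqR : q ∈ R.support := by
      by_contra hqR
      have h1 := hdegw q
      rw [← add_assoc, hcnt, countP_eq_zero_of_not_mem R hqR] at h1
      have h2 : ((s(x, p) :: s(p, q) :: s(q, x) :: []).countP fun e => q ∈ e) ≤ 3 :=
        List.countP_le_length
      have h3 : ((s(x, y) :: s(y, z) :: s(z, x) :: []).countP fun e => q ∈ e) = 0 := by
        simp [hqx.ne, hy'.2.symm, hz'.2.symm]
      have h4 := hdeg q (by
        have := hsupp q (Or.inr rfl)
        simp only [Walk.mem_support_append_iff]
        tauto)
      omega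
    refine ⟨a, _, R, hE, ?_⟩
    have hsub : ({y, z, p, q} : Finset V) ⊆ ((P.append ((Walk.cons hxy (Walk.cons hyz
        (Walk.cons hzx Walk.nil))).append P')).support.toFinset ∩ R.support.toFinset) := by
      intro w hw
      simp only [Finset.mem_insert, Finset.mem_singleton] at hw
      simp only [Finset.mem_inter, List.mem_toFinset, Walk.mem_support_append_iff,
        Walk.support_cons, List.mem_cons, Walk.support_nil]
      rcases hw with rfl | rfl | rfl | rfl
      · simp [hyR]
      · simp [hzR]
      · have := hsupp w (Or.inl rfl)
        tauto
      · have := hsupp w (Or.inr rfl)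
        tauto
    have hcard : ({y, z, p, q} : Finset V).card = 4 := by
      rw [Finset.card_insert_of_notMem, Finset.card_insert_of_notMem,
        Finset.card_insert_of_notMem, Finset.card_singleton]
      · simp [hpq.ne]
      · simp [hz'.1, hz'.2]
      · simp [hyz.ne, hy'.1, hy'.2]
    rw [← hcard]
    exact Finset.card_le_card hsub

theorem exists_good {a : V} (S R : G.Walk a a) (h : Valid S R) :
    ∃ (b : V) (S' R' : G.Walk b b), Good S' R' :=
  exists_good_aux _ a S R rfl h

end Pool.Agent.H48Maj
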